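import Pool.Agent.U151.IP.UpK

/-!
The critical case: finitely many points.
-/

set_option autoImplicit false

namespace Pool.Agent.U151.IP

open MeasureTheory Metric Set Filter Topology TopologicalSpace
open scoped ENNReal NNReal
open H443B.FS (ctr Ev Hit mem_Ev ctr_mem)
open H443B (inn iUnion_inn)

section

variable {Ω : Type*} [MeasurableSpace Ω] {μ : Measure Ω} {K : Ω → Set ℂ} {B : Set ℂ} {C : ℝ≥0∞}
  {r0 α : ℝ}

theorem cover_fin {s : ℝ} {Λ : ℝ≥0∞} (hB : μH[s] B < Λ) {r : ℝ≥0∞} (hr : 0 < r) :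
    ∃ t : ℕ → Set ℂ, B ⊆ ⋃ n, t n ∧ (∀ n, ediam (t n) ≤ r) ∧
      ∑' n, ⨆ _ : (t n).Nonempty, ediam (t n) ^ s < Λ := by
  rw [Measure.hausdorffMeasure_apply] at hB
  have h3 : (⨅ (t : ℕ → Set ℂ) (_ : B ⊆ ⋃ n, t n) (_ : ∀ n, ediam (t n) ≤ r),
      ∑' n, ⨆ _ : (t n).Nonempty, ediam (t n) ^ s) < Λ :=
    lt_of_le_of_lt (le_iSup₂ (f := fun (r : ℝ≥0∞) (_ : 0 < r) =>
      ⨅ (t : ℕ → Set ℂ) (_ : B ⊆ ⋃ n, t n) (_ : ∀ n, ediam (t n) ≤ r),
      ∑' n, ⨆ _ : (t n).Nonempty, ediam (t n) ^ s) r hr) hB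
  rw [iInf_lt_iff] at h3
  obtain ⟨t, ht⟩ := h3
  rw [iInf_lt_iff] at ht
  obtain ⟨ht1, ht⟩ := ht
  rw [iInf_lt_iff] at ht
  obtain ⟨ht2, ht⟩ := ht
  exact ⟨t, ht1, ht2, ht⟩

/-- If the random set meets small discs with probability at most `C r ^ α`, its intersection with a
set of finite `α`-dimensional measure is finite. -/
theorem inter_fin (hα : 0 < α) (hr0 : 0 < r0) (hC : C ≠ ∞) (hm : ∀ z r, MeasurableSet (Hit K z r))
    (hb : ∀ z ∈ B, ∀ r, 0 < r → r ≤ r0 → μ (Hit K z r) ≤ C * ENNReal.ofReal r ^ α)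
    (hB : μH[α] B ≠ ∞) : ∀ᵐ ω ∂μ, (K ω ∩ B).Finite := by
  have hpos : ∀ m : ℕ, (0 : ℝ≥0∞) < min (ENNReal.ofReal r0) (((m : ℝ≥0∞) + 1)⁻¹) := by
    intro m
    apply lt_min
    · simpa using hr0
    · rw [ENNReal.inv_pos]
      exact (ENNReal.add_lt_top.mpr ⟨ENNReal.natCast_lt_top m, ENNReal.one_lt_top⟩).ne
  set Λ : ℝ≥0∞ := μH[α] B + 1 with hΛ
  have hΛt : Λ ≠ ∞ := by
    rw [hΛ]
    exact ENNReal.add_ne_top.mpr ⟨hB, ENNReal.one_ne_top⟩
  have hBΛ : μH[α] B < Λ := by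
    rw [hΛ]
    exact ENNReal.lt_add_right hB one_ne_zero
  choose t h1 h2 h3 using fun m : ℕ => cover_fin hBΛ (hpos m)
  have hEvm : ∀ m n, MeasurableSet (Ev K B (t m n)) := by
    intro m n
    unfold Ev
    split_ifs
    · exact hm _ _
    · exact MeasurableSet.empty
  set G : ℕ → Ω → ℝ≥0∞ := fun m ω =>
    ∑' n, (Ev K B (t m n)).indicator (fun _ => (1 : ℝ≥0∞)) ω with hG
  have hGm : ∀ m, Measurable (G m) := fun m =>
    Measurable.ennreal_tsum fun n => measurable_const.indicator (hEvm m n)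
  have hd : ∀ m n, ediam (t m n) ≤ ENNReal.ofReal r0 := fun m n =>
    (h2 m n).trans (min_le_left _ _)
  have hint : ∀ m, ∫⁻ ω, G m ω ∂μ ≤ C * Λ := by
    intro m
    rw [hG]
    show ∫⁻ ω, ∑' n, (Ev K B (t m n)).indicator (fun _ => (1 : ℝ≥0∞)) ω ∂μ ≤ _
    rw [lintegral_tsum fun n => (measurable_const.indicator (hEvm m n)).aemeasurable]
    calc ∑' n, ∫⁻ ω, (Ev K B (t m n)).indicator (fun _ => (1 : ℝ≥0∞)) ω ∂μ
        ≤ ∑' n, C * ⨆ _ : (t m n).Nonempty, ediam (t m n) ^ α := by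
          apply ENNReal.tsum_le_tsum
          intro n
          rw [lintegral_indicator_const (hEvm m n), one_mul]
          refine (Ev_le hα hr0 hC hb (hd m n)).trans ?_
          apply iSup_le
          intro hne
          rw [iSup_pos hne]
      _ = C * ∑' n, ⨆ _ : (t m n).Nonempty, ediam (t m n) ^ α := ENNReal.tsum_mul_left
      _ ≤ C * Λ := by
          have := (h3 m).le
          gcongr
  have hfat : ∫⁻ ω, liminf (fun m => G m ω) atTop ∂μ ≤ C * Λ := by
    refine (lintegral_liminf_le hGm).trans ?_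
    apply liminf_le_of_frequently_le'
    exact Frequently.of_forall hint
  have hmeasl : Measurable (fun ω => liminf (fun m => G m ω) atTop) :=
    Measurable.liminf hGm
  have hae := ae_lt_top hmeasl (hfat.trans_lt (ENNReal.mul_lt_top hC.lt_top hΛt.lt_top)).ne
  filter_upwards [hae] with ω hω
  by_contra hinf
  have hinf' : (K ω ∩ B).Infinite := hinf
  -- a bound for the number of points
  have key : ∀ N : ℕ, (N : ℝ≥0∞) ≤ liminf (fun m => G m ω) atTop := by
    intro N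
    obtain ⟨P, hP1, hP2⟩ := hinf'.exists_subset_card_eq N
    -- minimal distance
    obtain ⟨d0, hd0, hsep⟩ : ∃ d0 : ℝ≥0∞, 0 < d0 ∧ ∀ x ∈ P, ∀ y ∈ P, x ≠ y → d0 ≤ edist x y := by
      classical
      set Q := (P ×ˢ P).filter (fun q => q.1 ≠ q.2) with hQ
      by_cases hne : Q.Nonempty
      · refine ⟨Q.inf' hne (fun q => edist q.1 q.2), ?_, ?_⟩
        · rw [Finset.lt_inf'_iff]
          intro q hq
          rw [hQ, Finset.mem_filter] at hq
          exact edist_pos.mpr hq.2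
        · intro x hx y hy hxy
          exact Finset.inf'_le (f := fun q : ℂ × ℂ => edist q.1 q.2)
            (Finset.mem_filter.mpr ⟨Finset.mem_product.mpr ⟨hx, hy⟩, hxy⟩ : (x, y) ∈ Q)
      · refine ⟨1, one_pos, fun x hx y hy hxy => ?_⟩
        exact absurd ⟨(x, y), Finset.mem_filter.mpr ⟨Finset.mem_product.mpr ⟨hx, hy⟩, hxy⟩⟩ hne
    have hr : Tendsto (fun m : ℕ => ((m : ℝ≥0∞) + 1)⁻¹) atTop (𝓝 0) := by
      have h5 : Tendsto (fun m : ℕ => (m : ℝ≥0∞) + 1) atTop (𝓝 ∞) :=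
        tendsto_nhds_top_mono ENNReal.tendsto_nat_nhds_top
          (Eventually.of_forall fun m => le_self_add)
      have h6 := ENNReal.tendsto_inv_iff.mpr h5
      rw [ENNReal.inv_top] at h6
      exact h6
    apply le_liminf_of_le (by isBoundedDefault)
    filter_upwards [hr.eventually_lt_const hd0] with m hm'
    have hx : ∀ x ∈ P, ∃ n, x ∈ t m n := fun x hx => mem_iUnion.mp (h1 m (hP1 hx).2)
    choose! f hf using hx
    have hinj : Set.InjOn f P := by
      intro x hx y hy hxy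
      by_contra hne
      have h6 := hsep x hx y hy hne
      have h7 : edist x y ≤ ediam (t m (f x)) :=
        edist_le_ediam_of_mem (hf x hx) (by rw [hxy]; exact hf y hy)
      have h8 := (h7.trans ((h2 m (f x)).trans (min_le_right _ _))).trans_lt hm'
      exact absurd h8 (not_lt.mpr h6)
    calc (N : ℝ≥0∞) = ∑ n ∈ P.image f, (1 : ℝ≥0∞) := by
          rw [Finset.sum_const, Finset.card_image_of_injOn hinj, hP2]
          simp
      _ ≤ ∑ n ∈ P.image f, (Ev K B (t m n)).indicator (fun _ => (1 : ℝ≥0∞)) ω := by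
          apply Finset.sum_le_sum
          intro n hn
          obtain ⟨x, hx, rfl⟩ := Finset.mem_image.mp hn
          rw [indicator_of_mem (mem_Ev ((hd m (f x)).trans_lt ENNReal.ofReal_lt_top).ne
            ⟨x, hP1 hx, hf x hx⟩)]
      _ ≤ G m ω := ENNReal.sum_le_tsum _
  have h9 : liminf (fun m => G m ω) atTop = ∞ := ENNReal.eq_top_of_forall_nnreal_le (by
    intro r
    obtain ⟨N, hN⟩ := exists_nat_ge r
    refine le_trans ?_ (key N)
    exact_mod_cast hN)
  exact absurd h9 hω.ne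

end

theorem measure_two_ne_top {B : Set ℂ} (hB : Bornology.IsBounded B) :
    μH[(2 : ℝ)] B ≠ ∞ := by
  have hL : LipschitzWith 2 (fun x : Fin 2 → ℝ => (⟨x 0, x 1⟩ : ℂ)) := by
    apply LipschitzWith.of_dist_le_mul
    intro x y
    rw [dist_eq_norm]
    have h := Complex.norm_le_abs_re_add_abs_im ((⟨x 0, x 1⟩ : ℂ) - ⟨y 0, y 1⟩)
    have e1 : ((⟨x 0, x 1⟩ : ℂ) - ⟨y 0, y 1⟩).re = x 0 - y 0 := by simp
    have e2 : ((⟨x 0, x 1⟩ : ℂ) - ⟨y 0, y 1⟩).im = x 1 - y 1 := by simp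
    rw [e1, e2, ← Real.dist_eq, ← Real.dist_eq] at h
    have h0 := dist_le_pi_dist x y 0
    have h1 := dist_le_pi_dist x y 1
    have e3 : ((2 : ℝ≥0) : ℝ) = 2 := by norm_num
    rw [e3]
    linarith
  obtain ⟨r, hr⟩ := hB.subset_closedBall (0 : ℂ)
  have hsub : B ⊆ (fun x : Fin 2 → ℝ => (⟨x 0, x 1⟩ : ℂ)) '' closedBall 0 (max r 0) := by
    intro z hz
    have h1 := hr hz
    rw [mem_closedBall_zero_iff] at h1
    refine ⟨![z.re, z.im], ?_, ?_⟩
    · rw [mem_closedBall_zero_iff, pi_norm_le_iff_of_nonneg (le_max_right _ _)]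
      intro i
      fin_cases i
      · exact (Complex.abs_re_le_norm z).trans (h1.trans (le_max_left _ _))
      · exact (Complex.abs_im_le_norm z).trans (h1.trans (le_max_left _ _))
    · simp
  have h2 := hL.hausdorffMeasure_image_le (d := 2) (by norm_num) (closedBall 0 (max r 0))
  have h3 : (μH[(2 : ℝ)] : Measure (Fin 2 → ℝ)) = volume := by
    have := hausdorffMeasure_pi_real (ι := Fin 2)
    simpa using this
  rw [h3] at h2
  refine ((measure_mono hsub).trans_lt (h2.trans_lt ?_)).ne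
  apply ENNReal.mul_lt_top
  · simp
  · exact (isCompact_closedBall (0 : Fin 2 → ℝ) (max r 0)).measure_lt_top

/-- A compact subset of an open set is at a positive distance of the complement. -/
theorem compact_inn {D A : Set ℂ} (hD : IsOpen D) (hA : IsCompact A) (hAD : A ⊆ D) :
    ∃ n : ℕ, A ⊆ inn D n := by
  obtain ⟨e, he, h⟩ := hA.exists_thickening_subset_open hD hAD
  obtain ⟨n, hn⟩ := exists_nat_one_div_lt he
  refine ⟨n, fun z hz => ?_⟩
  refine (ball_subset_ball hn.le).trans (Set.Subset.trans ?_ h)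
  intro w hw
  rw [mem_thickening_iff]
  exact ⟨z, hz, hw⟩

/-- Eight paths have finitely many common points in every compact subset of the domain. -/
theorem fin8 (R : H934E.Rect) {δ : ℕ → ℝ} (hδ : ∀ i, 0 < δ i)
    (hlim : Tendsto δ atTop (𝓝 0)) {μ : ProbabilityMeasure (NonemptyCompacts ℂ)}
    (hμ : Tendsto (fun i => R.law (hδ i)) atTop (𝓝 μ)) (hD : IsOpen R.D) :
    ∀ᵐ K : Fin 8 → NonemptyCompacts ℂ ∂(Measure.pi (fun _ : Fin 8 =>
      (μ : Measure (NonemptyCompacts ℂ)))),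
      ∀ A : Set ℂ, IsCompact A → A ⊆ R.D → (com K ∩ A).Finite := by
  obtain ⟨c, C, -, hC, hh⟩ := H934F.hit74 H985T.st_A H934SL.st_L
  have hit := (hh R δ hδ hlim μ hμ).2
  have hDb : Bornology.IsBounded R.D := by
    apply (isBounded_closedBall (x := (0:ℂ)) (r := R.A + R.B + R.H)).subset
    rintro z ⟨h1, h2, h3, h4⟩
    rw [mem_closedBall_zero_iff]
    have h5 := Complex.norm_le_abs_re_add_abs_im z
    have h6 : |z.re| ≤ R.A + R.B := by
      rw [abs_le]
      constructor <;> linarith [R.hA, R.hB]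
    have h7 : |z.im| ≤ R.H := by
      rw [abs_le]
      constructor <;> linarith [R.hH]
    linarith
  have hb : ∀ n : ℕ, ∀ z ∈ R.D ∩ inn R.D n, ∀ r : ℝ, 0 < r → r ≤ 1 / ((n : ℝ) + 1) →
      Measure.pi (fun _ : Fin 8 => (μ : Measure (NonemptyCompacts ℂ)))
        (Hit (com (k := 8)) z r)
        ≤ ENNReal.ofReal ((C * ((n : ℝ) + 1) ^ (1/4 : ℝ)) ^ 8) * ENNReal.ofReal r ^ (2 : ℝ) := by
    intro n z hz r hr hr2
    have h1 := hit z r (1 / ((n : ℝ) + 1)) hr hr2 hz.2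
    refine (hit_pow h1).trans (le_of_eq ?_)
    have e : C * (r / (1 / ((n : ℝ) + 1))) ^ (1/4 : ℝ) =
        C * ((n : ℝ) + 1) ^ (1/4 : ℝ) * r ^ (1/4 : ℝ) := by
      rw [mul_assoc, ← Real.mul_rpow (by positivity) hr.le]
      congr 2
      field_simp
    rw [e, mul_pow, ENNReal.ofReal_rpow_of_pos hr, ← ENNReal.ofReal_mul (by positivity)]
    congr 2
    rw [← Real.rpow_natCast, ← Real.rpow_mul hr.le]
    congr 1
    norm_num
  have h1 : ∀ᵐ K : Fin 8 → NonemptyCompacts ℂ ∂(Measure.pi (fun _ : Fin 8 =>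
      (μ : Measure (NonemptyCompacts ℂ)))),
      ∀ n : ℕ, (com K ∩ (R.D ∩ inn R.D n)).Finite := by
    rw [ae_all_iff]
    intro n
    exact inter_fin (by norm_num) (show (0 : ℝ) < 1 / ((n : ℝ) + 1) by positivity)
      ENNReal.ofReal_ne_top meas_hit (hb n)
      (measure_two_ne_top (hDb.subset Set.inter_subset_left))
  filter_upwards [h1] with K hK A hA hAD
  obtain ⟨n, hn⟩ := compact_inn hD hA hAD
  exact (hK n).subset (Set.inter_subset_inter_right _ (Set.subset_inter hAD hn))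

end Pool.Agent.U151.IP
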