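import Pool.Agent.H389R2.Dim.Lower

/-!
Intersections of several random compact sets: energy, semicontinuity and lower bounds for the
dimension of the limits.
-/

set_option autoImplicit false

namespace Pool.Agent.U151.IP

open MeasureTheory TopologicalSpace Filter Topology Metric Set
open scoped ENNReal NNReal
open Pool.Agent.H389R2.Dim

variable {X : Type*} [MetricSpace X]

/-- Finite energy implies good, for weighted points. -/
theorem good_of_energy_w {ι : Type*} {t δ E : ℝ} (hδ : 0 < δ) (ht : 0 ≤ t) (hE : 0 < E)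
    {K : Set X} (S : Finset ι) (x : ι → X) (w : ι → ℝ) (hw : ∀ i ∈ S, 0 ≤ w i)
    (hpos : 0 < ∑ i ∈ S, w i) (hSK : ∀ i ∈ S, w i ≠ 0 → x i ∈ K)
    (h : ∑ i ∈ S, ∑ j ∈ S, w i * w j * (max (dist (x i) (x j)) δ) ^ (-t) ≤
      E * (∑ i ∈ S, w i) ^ 2) :
    Good t δ (2 ^ (-t) / E) K := by
  classical
  intro s hs hcov
  have hposr : ∀ p ∈ s, 0 < p.2 := fun p hp => lt_of_lt_of_le hδ (hs p hp)
  -- remove the points of weight zero
  set S' := S.filter (fun i => w i ≠ 0) with hS'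
  have hS'S : S' ⊆ S := Finset.filter_subset _ _
  have hsum : ∑ i ∈ S', w i = ∑ i ∈ S, w i := by
    apply Finset.sum_subset hS'S
    intro i hi hi2
    by_contra hne
    exact hi2 (Finset.mem_filter.mpr ⟨hi, hne⟩)
  have h1 : ∀ i ∈ S', ∃ p ∈ s, x i ∈ ball p.1 p.2 := by
    intro i hi
    rw [hS', Finset.mem_filter] at hi
    obtain ⟨p, hp, hxp⟩ := Set.mem_iUnion₂.mp (hcov (hSK i hi.1 hi.2))
    exact ⟨p, hp, hxp⟩
  obtain ⟨i0, -⟩ : S.Nonempty := by
    rw [Finset.nonempty_iff_ne_empty]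
    rintro rfl
    simp at hpos
  have hne : Nonempty X := ⟨x i0⟩
  choose! f hf1 hf2 using h1
  have hw' : ∀ i ∈ S', 0 ≤ w i := fun i hi => hw i (hS'S hi)
  set N : X × ℝ → ℝ := fun p => ∑ i ∈ S'.filter (fun i => f i = p), w i with hN
  have h2 : (∑ i ∈ S, w i) = ∑ p ∈ s, N p := by
    rw [← hsum]
    exact (Finset.sum_fiberwise_of_maps_to (fun i hi => hf1 i hi) _).symm
  have hnn : ∀ i ∈ S', ∀ j ∈ S', 0 ≤ w i * w j * (max (dist (x i) (x j)) δ) ^ (-t) := by
    intro i hi j hj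
    have h3 : (0:ℝ) ≤ max (dist (x i) (x j)) δ := le_trans hδ.le (le_max_right _ _)
    exact mul_nonneg (mul_nonneg (hw' i hi) (hw' j hj)) (Real.rpow_nonneg h3 _)
  have h3 : ∑ p ∈ s, N p ^ 2 * (2 * p.2) ^ (-t) ≤ E * (∑ i ∈ S, w i) ^ 2 := by
    refine le_trans ?_ h
    have h4 : ∀ p ∈ s, N p ^ 2 * (2 * p.2) ^ (-t) ≤
        ∑ i ∈ S'.filter (fun i => f i = p), ∑ j ∈ S',
          w i * w j * (max (dist (x i) (x j)) δ) ^ (-t) := by
      intro p hp
      have h5 : N p ^ 2 * (2 * p.2) ^ (-t) = ∑ i ∈ S'.filter (fun i => f i = p),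
          ∑ j ∈ S'.filter (fun i => f i = p), w i * w j * (2 * p.2) ^ (-t) := by
        rw [hN, sq]
        simp only
        rw [Finset.sum_mul_sum, Finset.sum_mul]
        apply Finset.sum_congr rfl
        intro i _
        rw [Finset.sum_mul]
      rw [h5]
      apply Finset.sum_le_sum
      intro i hi
      have hi' := Finset.mem_filter.mp hi
      have h6 : ∑ j ∈ S'.filter (fun i => f i = p), w i * w j * (2 * p.2) ^ (-t) ≤
          ∑ j ∈ S'.filter (fun i => f i = p), w i * w j * (max (dist (x i) (x j)) δ) ^ (-t) := by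
        apply Finset.sum_le_sum
        intro j hj
        have hj' := Finset.mem_filter.mp hj
        have hx2 := hf2 i hi'.1
        have hy2 := hf2 j hj'.1
        rw [hi'.2, mem_ball] at hx2
        rw [hj'.2, mem_ball] at hy2
        have h7 : dist (x i) (x j) ≤ 2 * p.2 := by
          have := dist_triangle_right (x i) (x j) p.1
          linarith
        have h8 : max (dist (x i) (x j)) δ ≤ 2 * p.2 := max_le h7 (by linarith [hs p hp, hposr p hp])
        exact mul_le_mul_of_nonneg_left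
          (Real.rpow_le_rpow_of_nonpos (lt_of_lt_of_le hδ (le_max_right _ _)) h8 (by linarith))
          (mul_nonneg (hw' i hi'.1) (hw' j hj'.1))
      refine h6.trans (Finset.sum_le_sum_of_subset_of_nonneg (Finset.filter_subset _ _) ?_)
      intro j hj _
      exact hnn i hi'.1 j hj
    refine (Finset.sum_le_sum h4).trans ?_
    rw [Finset.sum_fiberwise_of_maps_to (fun i hi => hf1 i hi)
      (fun i => ∑ j ∈ S', w i * w j * (max (dist (x i) (x j)) δ) ^ (-t))]
    have h9 : ∀ i ∈ S', ∑ j ∈ S', w i * w j * (max (dist (x i) (x j)) δ) ^ (-t) ≤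
        ∑ j ∈ S, w i * w j * (max (dist (x i) (x j)) δ) ^ (-t) := by
      intro i hi
      apply Finset.sum_le_sum_of_subset_of_nonneg hS'S
      intro j hj _
      have h3 : (0:ℝ) ≤ max (dist (x i) (x j)) δ := le_trans hδ.le (le_max_right _ _)
      exact mul_nonneg (mul_nonneg (hw' i hi) (hw j hj)) (Real.rpow_nonneg h3 _)
    refine (Finset.sum_le_sum h9).trans ?_
    apply Finset.sum_le_sum_of_subset_of_nonneg hS'S
    intro i hi _
    apply Finset.sum_nonneg
    intro j hj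
    have h3 : (0:ℝ) ≤ max (dist (x i) (x j)) δ := le_trans hδ.le (le_max_right _ _)
    exact mul_nonneg (mul_nonneg (hw i hi) (hw j hj)) (Real.rpow_nonneg h3 _)
  -- Cauchy-Schwarz
  have h4 : (∑ p ∈ s, N p) ^ 2 ≤ (∑ p ∈ s, N p ^ 2 * (2 * p.2) ^ (-t)) * ∑ p ∈ s, (2 * p.2) ^ t := by
    have h5 := Finset.sum_mul_sq_le_sq_mul_sq s (fun p => N p * (2 * p.2) ^ (-t / 2))
      (fun p => (2 * p.2) ^ (t / 2))
    have h6 : ∑ p ∈ s, (N p * (2 * p.2) ^ (-t / 2)) * (2 * p.2) ^ (t / 2) = ∑ p ∈ s, N p := by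
      apply Finset.sum_congr rfl
      intro p hp
      have : (0 : ℝ) < 2 * p.2 := by linarith [hposr p hp]
      rw [mul_assoc, ← Real.rpow_add this]
      ring_nf
      simp
    have h7 : ∑ p ∈ s, (N p * (2 * p.2) ^ (-t / 2)) ^ 2 = ∑ p ∈ s, N p ^ 2 * (2 * p.2) ^ (-t) := by
      apply Finset.sum_congr rfl
      intro p hp
      have : (0 : ℝ) < 2 * p.2 := by linarith [hposr p hp]
      rw [mul_pow, ← Real.rpow_natCast ((2 * p.2) ^ (-t / 2)) 2, ← Real.rpow_mul this.le]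
      congr 2
      push_cast; ring
    have h8 : ∑ p ∈ s, ((2 * p.2) ^ (t / 2)) ^ 2 = ∑ p ∈ s, (2 * p.2) ^ t := by
      apply Finset.sum_congr rfl
      intro p hp
      have : (0 : ℝ) < 2 * p.2 := by linarith [hposr p hp]
      rw [← Real.rpow_natCast ((2 * p.2) ^ (t / 2)) 2, ← Real.rpow_mul this.le]
      congr 1
      push_cast; ring
    rw [h6, h7, h8] at h5
    exact h5
  have h5 : ∑ p ∈ s, (2 * p.2) ^ t = 2 ^ t * ∑ p ∈ s, p.2 ^ t := by
    rw [Finset.mul_sum]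
    apply Finset.sum_congr rfl
    intro p hp
    rw [Real.mul_rpow (by norm_num) (hposr p hp).le]
  rw [← h2, h5] at h4
  have h6 : (∑ i ∈ S, w i) ^ 2 ≤ E * (∑ i ∈ S, w i) ^ 2 * (2 ^ t * ∑ p ∈ s, p.2 ^ t) := by
    refine h4.trans (mul_le_mul_of_nonneg_right h3 ?_)
    have : 0 ≤ ∑ p ∈ s, p.2 ^ t := Finset.sum_nonneg fun p hp => Real.rpow_nonneg (hposr p hp).le _
    positivity
  have h7 : 1 ≤ E * (2 ^ t * ∑ p ∈ s, p.2 ^ t) := by
    have h8 : (0 : ℝ) < (∑ i ∈ S, w i) ^ 2 := by positivity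
    by_contra hcon
    rw [not_le] at hcon
    nlinarith
  have h8 : (0 : ℝ) < 2 ^ t := by positivity
  rw [Real.rpow_neg (by norm_num), div_le_iff₀ hE, inv_le_iff_one_le_mul₀ h8]
  linarith [h7]

/-! ### Semicontinuity -/

theorem isClosed_mem : IsClosed {q : NonemptyCompacts X × X | q.2 ∈ (q.1 : Set X)} := by
  rw [← isOpen_compl_iff, isOpen_iff_mem_nhds]
  rintro ⟨K, z⟩ hz
  have hz' : z ∉ (K : Set X) := hz
  obtain ⟨U, V, hU, hV, hKU, hzV, hd⟩ :=
    SeparatedNhds.of_isCompact_isCompact K.isCompact (isCompact_singleton (x := z))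
      (Set.disjoint_singleton_right.mpr hz')
  have h1 : {K' : NonemptyCompacts X | (K' : Set X) ⊆ U} ×ˢ V ∈ 𝓝 (K, z) :=
    prod_mem_nhds ((NonemptyCompacts.isOpen_subsets_of_isOpen hU).mem_nhds hKU)
      (hV.mem_nhds (Set.singleton_subset_iff.mp hzV))
  filter_upwards [h1]
  rintro ⟨K', z'⟩ ⟨h2, h3⟩ h4
  exact Set.disjoint_left.mp hd (h2 h4) h3

theorem isClosed_memT {k : ℕ} :
    IsClosed {q : (Fin k → NonemptyCompacts X) × X | ∀ i, q.2 ∈ (q.1 i : Set X)} := by
  have h : {q : (Fin k → NonemptyCompacts X) × X | ∀ i, q.2 ∈ (q.1 i : Set X)} =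
      ⋂ i, (fun q : (Fin k → NonemptyCompacts X) × X => (q.1 i, q.2)) ⁻¹'
        {q : NonemptyCompacts X × X | q.2 ∈ (q.1 : Set X)} := by
    ext q
    simp
  rw [h]
  apply isClosed_iInter
  intro i
  apply isClosed_mem.preimage
  fun_prop

/-- The event that a compact set meets the common part. -/
theorem isClosed_meet {k : ℕ} {C : Set X} (hC : IsCompact C) :
    IsClosed {K : Fin k → NonemptyCompacts X | (C ∩ ⋂ i, (K i : Set X)).Nonempty} := by
  have : CompactSpace C := isCompact_iff_compactSpace.mp hC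
  have h : {K : Fin k → NonemptyCompacts X | (C ∩ ⋂ i, (K i : Set X)).Nonempty} =
      Prod.fst '' ((fun q : (Fin k → NonemptyCompacts X) × C => (q.1, (q.2 : X))) ⁻¹'
        {q : (Fin k → NonemptyCompacts X) × X | ∀ i, q.2 ∈ (q.1 i : Set X)}) := by
    ext K
    constructor
    · rintro ⟨z, h1, h2⟩
      refine ⟨(K, ⟨z, h1⟩), ?_, rfl⟩
      intro i
      exact Set.mem_iInter.mp h2 i
    · rintro ⟨⟨K', z⟩, h1, rfl⟩
      exact ⟨z, z.2, Set.mem_iInter.mpr h1⟩
  rw [h]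
  apply isClosedMap_fst_of_compactSpace
  apply isClosed_memT.preimage
  fun_prop

theorem isOpen_inter_sub {k : ℕ} {C : Set X} (hC : IsCompact C) {U : Set X} (hU : IsOpen U) :
    IsOpen {K : Fin k → NonemptyCompacts X | C ∩ ⋂ i, (K i : Set X) ⊆ U} := by
  have h := isClosed_meet (k := k) (hC.diff hU)
  rw [← isOpen_compl_iff] at h
  convert h using 1
  ext K
  show (C ∩ ⋂ i, (K i : Set X) ⊆ U) ↔ ¬ (C \ U ∩ ⋂ i, (K i : Set X)).Nonempty
  rw [Set.not_nonempty_iff_eq_empty]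
  constructor
  · intro h1
    apply Set.eq_empty_iff_forall_notMem.mpr
    rintro z ⟨⟨h2, h3⟩, h4⟩
    exact h3 (h1 ⟨h2, h4⟩)
  · rintro h1 z ⟨h2, h3⟩
    by_contra h4
    have : z ∈ C \ U ∩ ⋂ i, (K i : Set X) := ⟨⟨h2, h4⟩, h3⟩
    rw [h1] at this
    exact this

theorem isClosed_goodT {k : ℕ} (t δ c : ℝ) {C : Set X} (hC : IsCompact C) :
    IsClosed {K : Fin k → NonemptyCompacts X | Good t δ c (C ∩ ⋂ i, (K i : Set X))} := by
  have h : {K : Fin k → NonemptyCompacts X | Good t δ c (C ∩ ⋂ i, (K i : Set X))} =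
      ⋂ s : Finset (X × ℝ), {K : Fin k → NonemptyCompacts X | (∀ p ∈ s, δ ≤ p.2) →
        (C ∩ ⋂ i, (K i : Set X)) ⊆ ⋃ p ∈ s, ball p.1 p.2 → c ≤ ∑ p ∈ s, p.2 ^ t} := by
    ext K; simp [Good]
  rw [h]
  apply isClosed_iInter
  intro s
  by_cases h1 : (∀ p ∈ s, δ ≤ p.2) ∧ ¬ c ≤ ∑ p ∈ s, p.2 ^ t
  · have h2 : {K : Fin k → NonemptyCompacts X | (∀ p ∈ s, δ ≤ p.2) →
        (C ∩ ⋂ i, (K i : Set X)) ⊆ ⋃ p ∈ s, ball p.1 p.2 → c ≤ ∑ p ∈ s, p.2 ^ t} =
        {K : Fin k → NonemptyCompacts X |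
          (C ∩ ⋂ i, (K i : Set X)) ⊆ ⋃ p ∈ s, ball p.1 p.2}ᶜ := by
      ext K
      simp only [Set.mem_ofPred_eq, Set.mem_compl_iff]
      constructor
      · intro h3 h4; exact h1.2 (h3 h1.1 h4)
      · intro h3 _ h4; exact absurd h4 h3
    rw [h2]
    exact (isOpen_inter_sub hC (isOpen_biUnion fun p _ => isOpen_ball)).isClosed_compl
  · have h2 : {K : Fin k → NonemptyCompacts X | (∀ p ∈ s, δ ≤ p.2) →
        (C ∩ ⋂ i, (K i : Set X)) ⊆ ⋃ p ∈ s, ball p.1 p.2 → c ≤ ∑ p ∈ s, p.2 ^ t} = univ := by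
      ext K
      simp only [Set.mem_ofPred_eq, Set.mem_univ, iff_true]
      intro h3 _
      by_contra h4
      exact h1 ⟨h3, h4⟩
    rw [h2]; exact isClosed_univ

/-- Compactness: if all neighbourhoods of a compact set are good, then so is the set. -/
theorem good_of_thick [ProperSpace X] {t c : ℝ} {C K : Set X} (hC : IsCompact C)
    (hK : IsClosed K)
    (h : ∀ m : ℕ, Good t (1 / ((m : ℝ) + 1)) c (cthickening (1 / ((m : ℝ) + 1)) C ∩ K)) :
    ∀ δ : ℝ, 0 < δ → Good t δ c (C ∩ K) := by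
  intro δ hδ s hs hcov
  have hdir : Directed (· ⊇ ·) (fun m : ℕ => cthickening (1 / ((m : ℝ) + 1)) C ∩ K) := by
    apply directed_of_isDirected_le
    intro m n hmn
    exact Set.inter_subset_inter_left _ (cthickening_mono (Nat.one_div_le_one_div hmn) _)
  have hcpt : ∀ m : ℕ, IsCompact (cthickening (1 / ((m : ℝ) + 1)) C ∩ K) := fun m =>
    hC.cthickening.inter_right hK
  have hO : IsOpen (⋃ p ∈ s, ball p.1 p.2) := isOpen_biUnion fun p _ => isOpen_ball
  have hsub : (⋂ m : ℕ, (cthickening (1 / ((m : ℝ) + 1)) C ∩ K)) ⊆ ⋃ p ∈ s, ball p.1 p.2 := by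
    refine subset_trans ?_ hcov
    intro z hz
    rw [Set.mem_iInter] at hz
    refine ⟨?_, (hz 0).2⟩
    have h1 : z ∈ closure C := by
      rw [closure_eq_iInter_cthickening' C (Set.range (fun m : ℕ => (1 / ((m : ℝ) + 1))))]
      · rw [Set.mem_iInter₂]
        rintro _ ⟨m, rfl⟩
        exact (hz m).1
      · intro ε hε
        obtain ⟨m, hm⟩ := exists_nat_one_div_lt hε
        exact ⟨_, ⟨m, rfl⟩, by positivity, hm.le⟩
    rwa [hC.isClosed.closure_eq] at h1
  obtain ⟨m, hm⟩ := exists_subset_nhds_of_isCompact hdir hcpt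
    (fun x hx => hO.mem_nhds (hsub hx))
  obtain ⟨n, hn⟩ := exists_nat_one_div_lt hδ
  have hmn : cthickening (1 / (((max m n : ℕ) : ℝ) + 1)) C ∩ K ⊆ ⋃ p ∈ s, ball p.1 p.2 :=
    subset_trans (Set.inter_subset_inter_left _
      (cthickening_mono (Nat.one_div_le_one_div (le_max_left m n)) _)) hm
  refine h (max m n) s (fun p hp => ?_) hmn
  exact (Nat.one_div_le_one_div (le_max_right m n)).trans (hn.le.trans (hs p hp))

/-- The lower bound for limits in law, for the common part of several random compact sets. -/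
theorem lowerT [ProperSpace X] {k : ℕ} [MeasurableSpace (Fin k → NonemptyCompacts X)]
    [OpensMeasurableSpace (Fin k → NonemptyCompacts X)]
    {t : ℝ} (ht : 0 < t) {μs : ℕ → ProbabilityMeasure (Fin k → NonemptyCompacts X)}
    {μ : ProbabilityMeasure (Fin k → NonemptyCompacts X)} (hμ : Tendsto μs atTop (𝓝 μ))
    {B : Set X}
    (h : ∀ ε : ℝ≥0∞, 0 < ε → ∃ c : ℝ, 0 < c ∧ ∃ C : Set X, IsCompact C ∧ C ⊆ B ∧
      ∀ δ : ℝ, 0 < δ → ∃ᶠ n in atTop, (μs n : Measure (Fin k → NonemptyCompacts X))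
        {K | ¬ Good t δ c (cthickening δ C ∩ ⋂ i, (K i : Set X))} ≤ ε) :
    ∀ᵐ K : Fin k → NonemptyCompacts X ∂(μ : Measure (Fin k → NonemptyCompacts X)),
      ENNReal.ofReal t ≤ dimH (B ∩ ⋂ i, (K i : Set X)) := by
  rw [ae_iff, ← nonpos_iff_eq_zero]
  apply ENNReal.le_of_forall_pos_le_add
  intro ε hε _
  obtain ⟨c, hc, C, hC, hCB, h1⟩ := h ε (by exact_mod_cast hε)
  have hopen : ∀ δ : ℝ, IsOpen {K : Fin k → NonemptyCompacts X |
      ¬ Good t δ c (cthickening δ C ∩ ⋂ i, (K i : Set X))} := fun δ =>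
    (isClosed_goodT t δ c (hC.cthickening)).isOpen_compl
  have h2 : ∀ δ : ℝ, 0 < δ → (μ : Measure (Fin k → NonemptyCompacts X))
      {K : Fin k → NonemptyCompacts X |
        ¬ Good t δ c (cthickening δ C ∩ ⋂ i, (K i : Set X))} ≤ ε := by
    intro δ hδ
    refine (ProbabilityMeasure.le_liminf_measure_open_of_tendsto hμ (hopen δ)).trans ?_
    exact liminf_le_of_frequently_le (h1 δ hδ)
  set W : ℕ → Set (Fin k → NonemptyCompacts X) := fun m =>
    {K : Fin k → NonemptyCompacts X | ¬ Good t (1 / ((m : ℝ) + 1)) c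
      (cthickening (1 / ((m : ℝ) + 1)) C ∩ ⋂ i, (K i : Set X))} with hW
  have hcl : ∀ K : Fin k → NonemptyCompacts X, IsClosed (⋂ i, (K i : Set X)) := fun K =>
    isClosed_iInter fun i => (K i).isCompact.isClosed
  have h3 : ({K : Fin k → NonemptyCompacts X | ¬ ENNReal.ofReal t ≤
      dimH (B ∩ ⋂ i, (K i : Set X))} : Set (Fin k → NonemptyCompacts X)) ⊆ ⋃ m : ℕ, W m := by
    intro K hK
    by_contra hcon
    simp only [hW, Set.mem_iUnion, Set.mem_ofPred_eq, not_exists, not_not] at hcon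
    apply hK
    refine le_trans ?_ (dimH_mono (Set.inter_subset_inter_left _ hCB))
    exact le_dimH_of_good ht hc (hC.inter_right (hcl K)) (good_of_thick hC (hcl K) hcon)
  refine le_trans (measure_mono h3) ?_
  rw [zero_add]
  have hmono : Monotone W := by
    intro m m' hmm K hK hG
    have h4 := Nat.one_div_le_one_div (α := ℝ) hmm
    exact hK ((hG.anti h4).mono
      (Set.inter_subset_inter_left _ (cthickening_mono h4 _)))
  rw [hmono.measure_iUnion]
  exact iSup_le fun m => h2 _ (by positivity)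

end Pool.Agent.U151.IP
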