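import Pool.Agent.U151.IP.Multi
import Pool.Agent.U151.IP.Gen
import Pool.Agent.H934R3.D74.Asm
import Pool.Agent.H934R3.SL.SL
import Pool.Agent.H985R3.TA.STA

/-!
Vertices at which `k` independent percolation configurations have both arms: moments of the weight
and of the energy, independence of the scales, and the deterministic consequence for the paths.
-/

set_option autoImplicit false

namespace Pool.Agent.U151.IP

open H973 hiding SR
open H974 H12S H934E H934F Finset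

variable {k : ℕ}

/-- Probability for `k` independent configurations. -/
noncomputable abbrev Qk (k : ℕ) (S : Finset Edg) (A : Finset (Edg × Fin k) → Prop) : ℝ :=
  Pr (fun _ => (1/2 : ℝ)) (cp k S) A

/-- Expectation for `k` independent configurations. -/
noncomputable abbrev Exk (k : ℕ) (S : Finset Edg) (f : Finset (Edg × Fin k) → ℝ) : ℝ :=
  Ex (fun _ => (1/2 : ℝ)) (cp k S) f

theorem okh : Ok (fun _ : Edg × Fin k => (1/2 : ℝ)) := okc (by norm_num) (by norm_num)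

/-- All copies have both arms at `v`. -/
def E2k (s : Bool × Bool) (h : ℤ) (v : Vtx) (F : Finset (Edg × Fin k)) : Prop :=
  ∀ i, E2 s h v (sl i F)

/-- All copies have the two crossings. -/
def Ck (h : ℤ) (F : Finset (Edg × Fin k)) : Prop := ∀ i, CL h (sl i F) ∧ CR h (sl i F)

/-- Weight of the vertices with arms in all copies. -/
noncomputable def Wk (s : Bool × Bool) (h : ℤ) (w : Vtx → ℝ) (F : Finset (Edg × Fin k)) : ℝ :=
  ∑ v ∈ core h, w v * ind (E2k s h v F)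

/-- Their energy. -/
noncomputable def Ek (t : ℝ) (s : Bool × Bool) (h : ℤ) (w : Vtx → ℝ)
    (F : Finset (Edg × Fin k)) : ℝ :=
  ∑ v ∈ core h, ∑ x ∈ core h, w v * w x * ((max (nd v x) 1 : ℤ) : ℝ) ^ (-t) *
    (ind (E2k s h v F) * ind (E2k s h x F))

/-- The energy of the weights. -/
noncomputable def Iw (t : ℝ) (h : ℤ) (w : Vtx → ℝ) : ℝ :=
  ∑ v ∈ core h, ∑ x ∈ core h, w v * w x * ((max (nd v x) 1 : ℤ) : ℝ) ^ (-t)

/-- The good event at scale `h`. -/
def GdW (c0 E0 t : ℝ) (s : Bool × Bool) (h : ℤ) (w : Vtx → ℝ) (F : Finset (Edg × Fin k)) : Prop :=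
  Ck h F ∧ c0 * (h : ℝ) ^ (-((k : ℝ) / 4)) ≤ Wk s h w F ∧
    Ek t s h w F ≤ E0 * (h : ℝ) ^ (-((k : ℝ) / 2) - t)

theorem mx_pos (a : ℤ) : (0:ℝ) < ((max a 1 : ℤ) : ℝ) := t5_max_pos a

theorem Wk_nonneg (s : Bool × Bool) (h : ℤ) {w : Vtx → ℝ} (hw : ∀ v, 0 ≤ w v)
    (F : Finset (Edg × Fin k)) : 0 ≤ Wk s h w F :=
  Finset.sum_nonneg (fun v _ => mul_nonneg (hw v) (ind_nonneg _))

theorem Ek_nonneg (t : ℝ) (s : Bool × Bool) (h : ℤ) {w : Vtx → ℝ} (hw : ∀ v, 0 ≤ w v)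
    (F : Finset (Edg × Fin k)) : 0 ≤ Ek t s h w F :=
  Finset.sum_nonneg (fun v _ => Finset.sum_nonneg (fun x _ =>
    mul_nonneg (mul_nonneg (mul_nonneg (hw v) (hw x)) (Real.rpow_nonneg (mx_pos _).le _))
      (mul_nonneg (ind_nonneg _) (ind_nonneg _))))

theorem Wk_sq (s : Bool × Bool) (h : ℤ) (w : Vtx → ℝ) (F : Finset (Edg × Fin k)) :
    Wk s h w F * Wk s h w F = Ek 0 s h w F := by
  unfold Wk Ek
  rw [Finset.sum_mul_sum]
  apply Finset.sum_congr rfl
  intro v _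
  apply Finset.sum_congr rfl
  intro x _
  rw [neg_zero, Real.rpow_zero]
  ring

theorem pow_quarter {h : ℝ} (hh : 0 < h) (k : ℕ) :
    (h ^ (-(1/4) : ℝ)) ^ k = h ^ (-((k : ℝ) / 4)) := by
  rw [← Real.rpow_natCast, ← Real.rpow_mul hh.le]
  congr 1
  ring

/-- first moment -/
theorem mom1 {c : ℝ} (hc : 0 < c) {s : Bool × Bool}
    (hT2 : ∀ h : ℤ, 1 ≤ h → ∀ (v : Vtx) (S : Finset Edg),
      RE (v.1 - 6 * h) (v.1 + 6 * h) (v.2 - 2 * h) (v.2 + 2 * h) ⊆ S →
      c * (h : ℝ) ^ (-(1/4) : ℝ) ≤ Q S (E2 s h v))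
    {h : ℤ} (hh : 2 ≤ h) {S : Finset Edg} (hS : SR h ⊆ S) {w : Vtx → ℝ} (hw : ∀ v, 0 ≤ w v)
    (hw1 : ∑ v ∈ core h, w v = 1) :
    (dlt * dlt * c) ^ k * (h : ℝ) ^ (-((k : ℝ) / 4)) ≤
      Exk k S (fun F => Wk s h w F * ind (Ck h F)) := by
  have hh0 : (0:ℝ) < h := by exact_mod_cast (show (0:ℤ) < h by omega)
  have hd := dlt_pos
  have e0 : Exk k S (fun F => Wk s h w F * ind (Ck h F)) =
      ∑ v ∈ core h, w v * ∏ _i : Fin k, Q S (fun F => E2 s h v F ∧ CL h F ∧ CR h F) := by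
    have e1 : Exk k S (fun F => Wk s h w F * ind (Ck h F)) =
        Exk k S (fun F => ∑ v ∈ core h,
          w v * ind (∀ i, E2 s h v (sl i F) ∧ CL h (sl i F) ∧ CR h (sl i F))) := by
      congr 1
      funext F
      unfold Wk
      rw [Finset.sum_mul]
      apply Finset.sum_congr rfl
      intro v _
      rw [mul_assoc, ← ind_and]
      congr 1
      apply ind_congr
      unfold E2k Ck
      exact forall_and.symm
    rw [e1]
    unfold Exk
    rw [Ex_sum]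
    apply Finset.sum_congr rfl
    intro v _
    rw [Ex_mul_left]
    congr 1
    exact Pr_all (1/2) S (fun _ F => E2 s h v F ∧ CL h F ∧ CR h F)
  rw [e0, ← one_mul ((dlt * dlt * c) ^ k * (h : ℝ) ^ (-((k : ℝ) / 4))), ← hw1, Finset.sum_mul]
  apply Finset.sum_le_sum
  intro v hv
  apply mul_le_mul_of_nonneg_left _ (hw v)
  rw [← pow_quarter hh0, ← mul_pow, Finset.prod_const, Finset.card_univ, Fintype.card_fin]
  apply pow_le_pow_left₀
  · have := Real.rpow_nonneg hh0.le (-(1/4) : ℝ)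
    positivity
  · refine le_trans ?_ (t1c h hh S hS s v hv)
    rw [mul_assoc]
    exact mul_le_mul_of_nonneg_left (hT2 h (by omega) v S (t5_sub (by omega) hv hS))
      (by positivity)

/-- expectation of the energy -/
theorem mom2 {C : ℝ} (hC : 0 < C) {s : Bool × Bool}
    (hT3 : ∀ h : ℤ, 1 ≤ h → ∀ v w : Vtx, nd v w ≤ 2 * h →
      ∀ (S : Finset Edg), RE (v.1 - 6 * h) (v.1 + 6 * h) (v.2 - 2 * h) (v.2 + 2 * h) ⊆ S →
        RE (w.1 - 6 * h) (w.1 + 6 * h) (w.2 - 2 * h) (w.2 + 2 * h) ⊆ S → ∀ s : Bool × Bool,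
      Q S (fun F => E2 s h v F ∧ E2 s h w F) ≤
        C * ((max (nd v w) 1 : ℤ) : ℝ) ^ (-(1/4) : ℝ) * (h : ℝ) ^ (-(1/4) : ℝ))
    (t : ℝ) {h : ℤ} (hh : 1 ≤ h) {S : Finset Edg} (hS : SR h ⊆ S) {w : Vtx → ℝ}
    (hw : ∀ v, 0 ≤ w v) :
    Exk k S (Ek t s h w) ≤ C ^ k * (h : ℝ) ^ (-((k : ℝ) / 4)) * Iw (t + (k : ℝ) / 4) h w := by
  have hh0 : (0:ℝ) < h := by exact_mod_cast (show (0:ℤ) < h by omega)
  have e0 : Exk k S (Ek t s h w) = ∑ v ∈ core h, ∑ x ∈ core h,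
      w v * w x * ((max (nd v x) 1 : ℤ) : ℝ) ^ (-t) *
        ∏ _i : Fin k, Q S (fun F => E2 s h v F ∧ E2 s h x F) := by
    have e1 : Exk k S (Ek t s h w) = Exk k S (fun F => ∑ v ∈ core h, ∑ x ∈ core h,
        w v * w x * ((max (nd v x) 1 : ℤ) : ℝ) ^ (-t) *
          ind (∀ i, E2 s h v (sl i F) ∧ E2 s h x (sl i F))) := by
      congr 1
      funext F
      unfold Ek
      apply Finset.sum_congr rfl
      intro v _
      apply Finset.sum_congr rfl
      intro x _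
      rw [← ind_and]
      congr 1
      apply ind_congr
      unfold E2k
      exact forall_and.symm
    rw [e1]
    unfold Exk
    rw [Ex_sum]
    apply Finset.sum_congr rfl
    intro v _
    rw [Ex_sum]
    apply Finset.sum_congr rfl
    intro x _
    rw [Ex_mul_left]
    congr 1
    exact Pr_all (1/2) S (fun _ F => E2 s h v F ∧ E2 s h x F)
  rw [e0]
  unfold Iw
  rw [Finset.mul_sum]
  apply Finset.sum_le_sum
  intro v hv
  rw [Finset.mul_sum]
  apply Finset.sum_le_sum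
  intro x hx
  have hm := mx_pos (nd v x)
  have i1 := hT3 h hh v x (t5_nd hv hx) S (t5_sub hh hv hS) (t5_sub hh hx hS) s
  have i2 : ∏ _i : Fin k, Q S (fun F => E2 s h v F ∧ E2 s h x F) ≤
      (C * ((max (nd v x) 1 : ℤ) : ℝ) ^ (-(1/4) : ℝ) * (h : ℝ) ^ (-(1/4) : ℝ)) ^ k := by
    rw [Finset.prod_const, Finset.card_univ, Fintype.card_fin]
    exact pow_le_pow_left₀ (Pr_nonneg okhalf _ _) i1 k
  refine (mul_le_mul_of_nonneg_left i2 (mul_nonneg (mul_nonneg (hw v) (hw x))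
    (Real.rpow_nonneg hm.le _))).trans (le_of_eq ?_)
  rw [mul_pow, mul_pow, pow_quarter hh0, pow_quarter hm, neg_add, Real.rpow_add hm]
  ring

/-- The good event has positive probability. -/
theorem t5k : ∃ (s : Bool × Bool) (c1 C1 : ℝ), 0 < c1 ∧ 0 < C1 ∧
    ∀ (k : ℕ) (M t : ℝ), 0 < M → ∀ h : ℤ, 2 ≤ h → ∀ S : Finset Edg, SR h ⊆ S →
      ∀ w : Vtx → ℝ, (∀ v, 0 ≤ w v) → ∑ v ∈ core h, w v = 1 →
      Iw ((k : ℝ) / 4) h w ≤ M * (h : ℝ) ^ (-((k : ℝ) / 4)) →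
      Iw (t + (k : ℝ) / 4) h w ≤ M * (h : ℝ) ^ (-(t + (k : ℝ) / 4)) →
      (c1 ^ k) ^ 2 / (8 * C1 ^ k * M) ≤
        Qk k S (GdW (c1 ^ k / 2) (C1 ^ k * M / ((c1 ^ k) ^ 2 / (8 * C1 ^ k * M))) t s h w) := by
  obtain ⟨c, s, hc, hT2⟩ := t2 H934SL.st_L
  obtain ⟨C, hC, hT3⟩ := t3 H985T.st_A
  have hd := dlt_pos
  refine ⟨s, dlt * dlt * c, C, by positivity, hC, ?_⟩
  intro k M t hM h hh S hS w hw hw1 hI0 hIt
  have hh0 : (0:ℝ) < h := by exact_mod_cast (show (0:ℤ) < h by omega)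
  set c1 : ℝ := dlt * dlt * c with hc1
  have hc1' : 0 < c1 := by positivity
  set p : ℝ := (c1 ^ k) ^ 2 / (8 * C ^ k * M) with hp
  have hp0 : 0 < p := by positivity
  have hU : 0 < (h : ℝ) ^ (-((k : ℝ) / 4)) := Real.rpow_pos_of_pos hh0 _
  have hU2 : (h : ℝ) ^ (-((k : ℝ) / 4)) * (h : ℝ) ^ (-((k : ℝ) / 4)) =
      (h : ℝ) ^ (-((k : ℝ) / 2)) := by
    rw [← Real.rpow_add hh0]; congr 1; ring
  set Y : Finset (Edg × Fin k) → ℝ := fun F => Wk s h w F * ind (Ck h F) with hY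
  have hY0 : ∀ F, 0 ≤ Y F := fun F => mul_nonneg (Wk_nonneg s h hw F) (ind_nonneg _)
  have l1 : c1 ^ k * (h : ℝ) ^ (-((k : ℝ) / 4)) ≤ Exk k S Y := mom1 hc hT2 hh hS hw hw1
  have l2 : Exk k S (fun F => Y F * Y F) ≤ C ^ k * M * (h : ℝ) ^ (-((k : ℝ) / 2)) := by
    have i0 : Exk k S (fun F => Y F * Y F) ≤ Exk k S (Ek 0 s h w) := by
      apply Ex_mono okh
      intro F _
      rw [← Wk_sq]
      have i1 : Y F ≤ Wk s h w F := by
        rw [hY]
        exact mul_le_of_le_one_right (Wk_nonneg s h hw F) (ind_le_one _)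
      exact mul_le_mul i1 i1 (hY0 F) (Wk_nonneg s h hw F)
    have i1 := mom2 (k := k) hC hT3 0 (show (1:ℤ) ≤ h by omega) hS hw (s := s)
    rw [zero_add] at i1
    refine i0.trans (i1.trans ?_)
    rw [← hU2]
    calc C ^ k * (h : ℝ) ^ (-((k : ℝ) / 4)) * Iw ((k : ℝ) / 4) h w
        ≤ C ^ k * (h : ℝ) ^ (-((k : ℝ) / 4)) * (M * (h : ℝ) ^ (-((k : ℝ) / 4))) :=
          mul_le_mul_of_nonneg_left hI0 (by positivity)
      _ = _ := by ring
  have l3 : Exk k S (Ek t s h w) ≤ C ^ k * M * (h : ℝ) ^ (-((k : ℝ) / 2) - t) := by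
    refine (mom2 (k := k) hC hT3 t (show (1:ℤ) ≤ h by omega) hS hw (s := s)).trans ?_
    have e : (h : ℝ) ^ (-((k : ℝ) / 2) - t) =
        (h : ℝ) ^ (-((k : ℝ) / 4)) * (h : ℝ) ^ (-(t + (k : ℝ) / 4)) := by
      rw [← Real.rpow_add hh0]; congr 1; ring
    rw [e]
    calc C ^ k * (h : ℝ) ^ (-((k : ℝ) / 4)) * Iw (t + (k : ℝ) / 4) h w
        ≤ C ^ k * (h : ℝ) ^ (-((k : ℝ) / 4)) * (M * (h : ℝ) ^ (-(t + (k : ℝ) / 4))) :=
          mul_le_mul_of_nonneg_left hIt (by positivity)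
      _ = _ := by ring
  have hUh : 0 < (h : ℝ) ^ (-((k : ℝ) / 2)) := Real.rpow_pos_of_pos hh0 _
  have j1 := paleyG (p := fun _ => (1/2 : ℝ)) okh (S := cp k S) (f := Y) (fun F _ => hY0 F)
    (m := c1 ^ k * (h : ℝ) ^ (-((k : ℝ) / 4))) (V := C ^ k * M * (h : ℝ) ^ (-((k : ℝ) / 2)))
    (by positivity) (by positivity) l1 l2
  have e3 : (c1 ^ k * (h : ℝ) ^ (-((k : ℝ) / 4))) ^ 2 /
      (4 * (C ^ k * M * (h : ℝ) ^ (-((k : ℝ) / 2)))) = 2 * p := by
    rw [← hU2, hp]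
    field_simp
    ring
  rw [e3] at j1
  have hU3 : 0 < (h : ℝ) ^ (-((k : ℝ) / 2) - t) := Real.rpow_pos_of_pos hh0 _
  have j2 := markovG (p := fun _ => (1/2 : ℝ)) okh (S := cp k S) (f := Ek t s h w)
    (fun F _ => Ek_nonneg t s h hw F)
    (t := C ^ k * M / p * (h : ℝ) ^ (-((k : ℝ) / 2) - t)) (by positivity)
  have j3 : Exk k S (Ek t s h w) / (C ^ k * M / p * (h : ℝ) ^ (-((k : ℝ) / 2) - t)) ≤ p := by
    rw [div_le_iff₀ (by positivity)]
    refine l3.trans (le_of_eq ?_)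
    field_simp
  have j4 : Qk k S (fun F => c1 ^ k * (h : ℝ) ^ (-((k : ℝ) / 4)) / 2 ≤ Y F) ≤
      Qk k S (GdW (c1 ^ k / 2) (C ^ k * M / p) t s h w) +
      Qk k S (fun F => C ^ k * M / p * (h : ℝ) ^ (-((k : ℝ) / 2) - t) ≤ Ek t s h w F) := by
    refine le_trans ?_ (Pr_or_le okh (cp k S) (GdW (c1 ^ k / 2) (C ^ k * M / p) t s h w) _)
    apply Pr_mono okh
    intro F _ hF
    by_cases h5 : Ek t s h w F ≤ C ^ k * M / p * (h : ℝ) ^ (-((k : ℝ) / 2) - t)
    · left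
      have hpos : 0 < Y F := lt_of_lt_of_le (by positivity) hF
      have hcr : Ck h F := by
        by_contra hn
        rw [hY] at hpos
        simp only at hpos
        rw [ind_not_of hn, mul_zero] at hpos
        exact lt_irrefl _ hpos
      refine ⟨hcr, ?_, h5⟩
      rw [hY] at hF
      simp only at hF
      rw [ind_of hcr, mul_one] at hF
      refine le_trans (le_of_eq ?_) hF
      ring
    · exact Or.inr (le_of_not_ge h5)
  unfold Qk at j4 ⊢
  linarith [j1, j2.trans j3, j4]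

/-! ### Independence of the scales -/

theorem E2k_loc {s : Bool × Bool} {h : ℤ} {v : Vtx} (hv : v ∈ core h)
    (F : Finset (Edg × Fin k)) : E2k s h v F ↔ E2k s h v (F ∩ cp k (SR h)) := by
  unfold E2k
  refine forall_congr' fun i => ?_
  rw [sl_inter, ← t6_E2 hv]

theorem GdW_loc {c0 E0 t : ℝ} {s : Bool × Bool} {h : ℤ} {w : Vtx → ℝ} (hh : 1 ≤ h)
    (F : Finset (Edg × Fin k)) :
    GdW c0 E0 t s h w F ↔ GdW c0 E0 t s h w (F ∩ cp k (SR h)) := by
  have e1 : Wk s h w F = Wk s h w (F ∩ cp k (SR h)) := by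
    unfold Wk
    apply Finset.sum_congr rfl
    intro v hv
    rw [ind_congr (E2k_loc hv F)]
  have e2 : Ek t s h w F = Ek t s h w (F ∩ cp k (SR h)) := by
    unfold Ek
    apply Finset.sum_congr rfl
    intro v hv
    apply Finset.sum_congr rfl
    intro x hx
    rw [ind_congr (E2k_loc hv F), ind_congr (E2k_loc hx F)]
  have e3 : Ck h F ↔ Ck h (F ∩ cp k (SR h)) := by
    unfold Ck
    refine forall_congr' fun i => ?_
    rw [sl_inter, ← t6_CL hh, ← t6_CR hh]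
  unfold GdW
  rw [← e1, ← e2, ← e3]

theorem t6k {p : ℝ} (hp : p ≤ 1) {c0 E0 t : ℝ} {s : Bool × Bool} {hs : ℕ → ℤ}
    (h2 : ∀ j, 2 ≤ hs j) (h16 : ∀ j, 16 * hs j ≤ hs (j + 1)) {w : ℕ → Vtx → ℝ} (J : ℕ) :
    ∀ S : Finset Edg, (∀ j < J, ∀ T : Finset Edg, SR (hs j) ⊆ T →
        p ≤ Qk k T (GdW c0 E0 t s (hs j) (w j))) →
      (∀ j < J, SR (hs j) ⊆ S) →
      Qk k S (fun F => ∀ j < J, ¬ GdW c0 E0 t s (hs j) (w j) F) ≤ (1 - p) ^ J := by
  have hmono : ∀ i j : ℕ, i ≤ j → hs i ≤ hs j := by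
    intro i j hij
    induction j with
    | zero =>
      have : i = 0 := by omega
      subst this
      exact le_rfl
    | succ j ih =>
      rcases Nat.lt_or_ge j i with h | h
      · have : i = j + 1 := by omega
        subst this
        exact le_rfl
      · have := ih h
        have h3 := h16 j
        have h4 := h2 j
        omega
  induction J with
  | zero =>
    intro S _ _
    rw [pow_zero]
    exact Pr_le_one okh _ _
  | succ J ih =>
    intro S hG hS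
    set T : Finset Edg := (Finset.range J).biUnion (fun j => SR (hs j)) with hT
    have hTS : T ⊆ S := by
      rw [hT, Finset.biUnion_subset]
      intro j hj
      exact hS j (by have := Finset.mem_range.mp hj; omega)
    have hdis : Disjoint T (SR (hs J)) := by
      rw [hT, Finset.disjoint_biUnion_left]
      intro j hj
      have hj' := Finset.mem_range.mp hj
      apply t6_disj (by have := h2 j; omega)
      exact (h16 j).trans (hmono (j + 1) J hj')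
    have hA : ∀ F : Finset (Edg × Fin k), F ⊆ cp k S →
        ((∀ j < J, ¬ GdW c0 E0 t s (hs j) (w j) F) ↔
        ∀ j < J, ¬ GdW c0 E0 t s (hs j) (w j) (F ∩ cp k T)) := by
      intro F _
      refine forall_congr' fun j => ?_
      refine forall_congr' fun hj => ?_
      have hsub : SR (hs j) ⊆ T := by
        rw [hT]
        exact Finset.subset_biUnion_of_mem (fun j => SR (hs j)) (Finset.mem_range.mpr hj)
      have hh : (1 : ℤ) ≤ hs j := by have := h2 j; omega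
      rw [GdW_loc hh F, GdW_loc hh (F ∩ cp k T), Finset.inter_assoc,
        Finset.inter_eq_right.mpr (cp_sub hsub)]
    have hB : ∀ F : Finset (Edg × Fin k), F ⊆ cp k S → (¬ GdW c0 E0 t s (hs J) (w J) F ↔
        ¬ GdW c0 E0 t s (hs J) (w J) (F ∩ cp k (SR (hs J)))) := by
      intro F _
      have hh : (1 : ℤ) ≤ hs J := by have := h2 J; omega
      rw [← GdW_loc hh F]
    have e1 : Qk k S (fun F => ∀ j < J + 1, ¬ GdW c0 E0 t s (hs j) (w j) F) =
        Qk k S (fun F => (∀ j < J, ¬ GdW c0 E0 t s (hs j) (w j) F) ∧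
          ¬ GdW c0 E0 t s (hs J) (w J) F) := by
      apply Pr_congr
      intro F _
      constructor
      · intro h3
        exact ⟨fun j hj => h3 j (by omega), h3 J (by omega)⟩
      · rintro ⟨h3, h4⟩ j hj
        rcases Nat.lt_or_ge j J with h5 | h5
        · exact h3 j h5
        · have : j = J := by omega
          subst this
          exact h4
    rw [e1]
    have e2 : Qk k S (fun F => (∀ j < J, ¬ GdW c0 E0 t s (hs j) (w j) F) ∧
          ¬ GdW c0 E0 t s (hs J) (w J) F) =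
        Qk k S (fun F => ∀ j < J, ¬ GdW c0 E0 t s (hs j) (w j) F) *
          Qk k S (fun F => ¬ GdW c0 E0 t s (hs J) (w J) F) :=
      Pr_indep (cp_sub hTS) (cp_sub (hS J (by omega))) (cp_disj hdis) hA hB
    rw [e2, pow_succ]
    have h3 := ih S (fun j hj => hG j (by omega)) (fun j hj => hS j (by omega))
    have h4 : Qk k S (fun F => ¬ GdW c0 E0 t s (hs J) (w J) F) ≤ 1 - p := by
      unfold Qk
      rw [Pr_not]
      have := hG J (by omega) S (hS J (by omega))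
      unfold Qk at this
      linarith
    have h5 : 0 ≤ Qk k S (fun F => ¬ GdW c0 E0 t s (hs J) (w J) F) := Pr_nonneg okh _ _
    have h6 : (0 : ℝ) ≤ (1 - p) ^ J := pow_nonneg (by linarith) _
    exact mul_le_mul h3 h4 h5 h6

/-! ### Paths -/

theorem t7k (R : Rect) {δ : ℝ} (hδ : 0 < δ) {h : ℤ} (hh : 2 ≤ h)
    (hL : 16 * (h : ℝ) * δ ≤ R.L0) {F : Finset (Edg × Fin k)} (hF : F ⊆ cp k (R.edges δ))
    {c0 E0 t : ℝ} {s : Bool × Bool} {w : Vtx → ℝ} (hw : ∀ v, 0 ≤ w v) (hc0 : 0 < c0)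
    (hE0 : 0 < E0) (ht : 0 < t) (hG : GdW c0 E0 t s h w F) {P : Set ℂ}
    (hP : ∀ v ∈ core h, w v ≠ 0 → t7_pt δ s v ∈ P) {δ' : ℝ} (hδ' : δ ≤ δ') :
    Pool.Agent.H389R2.Dim.Good t δ' (2 ^ (-t) / (E0 / c0 ^ 2 * (δ * h) ^ (-t)))
      (P ∩ ⋂ i, R.path δ (sl i F)) := by
  obtain ⟨hC, hcard, hEn⟩ := hG
  have hh0 : (0 : ℝ) < (h : ℝ) := by exact_mod_cast (by omega : (0 : ℤ) < h)
  have hE : 0 < E0 / c0 ^ 2 * (δ * h) ^ (-t) := by positivity
  have hcpos : (0 : ℝ) < Wk s h w F := lt_of_lt_of_le (by positivity) hcard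
  have hδ0' : 0 < δ' := lt_of_lt_of_le hδ hδ'
  refine good_of_energy_w hδ0' ht.le hE (core h) (t7_pt δ s)
    (fun v => w v * ind (E2k s h v F)) (fun v _ => mul_nonneg (hw v) (ind_nonneg _)) hcpos ?_ ?_
  · intro v hv hne
    have hne1 : w v ≠ 0 := fun h0 => hne (by rw [h0, zero_mul])
    have hne2 : E2k s h v F := by
      by_contra hn
      exact hne (by rw [ind_not_of hn, mul_zero])
    refine ⟨hP v hv hne1, ?_⟩
    rw [Set.mem_iInter]
    intro i
    have h5 := t4 R δ hδ h hh hL (sl i F) (sl_sub hF i) (hC i).1 (hC i).2 s v hv (hne2 i)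
    unfold Rect.path
    rw [Set.mem_iUnion₂]
    exact ⟨(v, s), h5, left_mem_segment ℝ _ _⟩
  · have e1 : ∀ v ∈ core h, ∀ x ∈ core h,
        (w v * ind (E2k s h v F)) * (w x * ind (E2k s h x F)) *
          (max (dist (t7_pt δ s v) (t7_pt δ s x)) δ') ^ (-t) ≤
        δ ^ (-t) * (w v * w x * ((max (nd v x) 1 : ℤ) : ℝ) ^ (-t) *
          (ind (E2k s h v F) * ind (E2k s h x F))) := by
      intro v _ x _
      have hm : (1 : ℝ) ≤ ((max (nd v x) 1 : ℤ) : ℝ) := by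
        exact_mod_cast le_max_right (nd v x) 1
      have h7 : (max (dist (t7_pt δ s v) (t7_pt δ s x)) δ') ^ (-t) ≤
          δ ^ (-t) * ((max (nd v x) 1 : ℤ) : ℝ) ^ (-t) := by
        rw [← Real.mul_rpow hδ.le (by linarith)]
        refine Real.rpow_le_rpow_of_nonpos (by positivity) ?_ (by linarith)
        have h6 := t7_dist hδ s v x
        rcases max_cases (nd v x) 1 with h | h
        · rw [h.1]; exact h6.trans (le_max_left _ _)
        · rw [h.1]; push_cast; rw [mul_one]; exact hδ'.trans (le_max_right _ _)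
      have h8 : 0 ≤ (w v * ind (E2k s h v F)) * (w x * ind (E2k s h x F)) :=
        mul_nonneg (mul_nonneg (hw v) (ind_nonneg _)) (mul_nonneg (hw x) (ind_nonneg _))
      refine (mul_le_mul_of_nonneg_left h7 h8).trans (le_of_eq ?_)
      ring
    refine (Finset.sum_le_sum fun v hv => Finset.sum_le_sum fun x hx => e1 v hv x hx).trans ?_
    have e2 : ∑ v ∈ core h, ∑ x ∈ core h, δ ^ (-t) *
        (w v * w x * ((max (nd v x) 1 : ℤ) : ℝ) ^ (-t) *
          (ind (E2k s h v F) * ind (E2k s h x F))) = δ ^ (-t) * Ek t s h w F := by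
      unfold Ek
      rw [Finset.mul_sum]
      refine Finset.sum_congr rfl fun v _ => ?_
      rw [Finset.mul_sum]
    rw [e2]
    have e3 : (c0 * (h : ℝ) ^ (-((k : ℝ) / 4))) ^ 2 ≤ (Wk s h w F) ^ 2 :=
      pow_le_pow_left₀ (by positivity) hcard 2
    have e4 : (c0 * (h : ℝ) ^ (-((k : ℝ) / 4))) ^ 2 = c0 ^ 2 * (h : ℝ) ^ (-((k : ℝ) / 2)) := by
      rw [mul_pow, ← Real.rpow_natCast ((h : ℝ) ^ (-((k : ℝ) / 4))) 2, ← Real.rpow_mul hh0.le]
      congr 2
      push_cast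
      ring
    rw [e4] at e3
    calc δ ^ (-t) * Ek t s h w F ≤ δ ^ (-t) * (E0 * (h : ℝ) ^ (-((k : ℝ) / 2) - t)) :=
          mul_le_mul_of_nonneg_left hEn (by positivity)
      _ = E0 / c0 ^ 2 * (δ * h) ^ (-t) * (c0 ^ 2 * (h : ℝ) ^ (-((k : ℝ) / 2))) := by
          rw [Real.mul_rpow hδ.le hh0.le, sub_eq_add_neg, Real.rpow_add hh0]
          field_simp
      _ ≤ E0 / c0 ^ 2 * (δ * h) ^ (-t) * (Wk s h w F) ^ 2 :=
          mul_le_mul_of_nonneg_left e3 hE.le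

end Pool.Agent.U151.IP
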