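import Pool.Agent.U151.IP.UpK

/-!
The common points of `k` independent limits of the trace: dimension near the end point.
-/

set_option autoImplicit false

namespace Pool.Agent.U151.IP

open MeasureTheory TopologicalSpace Filter Topology
open scoped ENNReal NNReal

variable {k : ℕ}

theorem dimH_C_le (A : Set ℂ) : dimH A ≤ 2 := by
  refine (dimH_mono (Set.subset_univ A)).trans (le_of_eq ?_)
  rw [Real.dimH_univ_eq_finrank ℂ]
  rw [Complex.finrank_real_complex]
  norm_num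

theorem dimH_line_le (l : ℝ) : dimH {z : ℂ | z.re = l * z.im} ≤ 1 := by
  have hL : LipschitzWith (Real.toNNReal (|l| + 1)) (fun y : ℝ => (⟨l * y, y⟩ : ℂ)) := by
    apply LipschitzWith.of_dist_le_mul
    intro x y
    rw [Real.coe_toNNReal _ (by positivity), dist_eq_norm, Real.dist_eq]
    have h := Complex.norm_le_abs_re_add_abs_im ((⟨l * x, x⟩ : ℂ) - ⟨l * y, y⟩)
    have e1 : ((⟨l * x, x⟩ : ℂ) - ⟨l * y, y⟩).re = l * (x - y) := by simp; ring
    have e2 : ((⟨l * x, x⟩ : ℂ) - ⟨l * y, y⟩).im = x - y := by simp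
    rw [e1, e2, abs_mul] at h
    linarith
  have hsub : {z : ℂ | z.re = l * z.im} ⊆ (fun y : ℝ => (⟨l * y, y⟩ : ℂ)) '' Set.univ := by
    intro z hz
    refine ⟨z.im, Set.mem_univ _, ?_⟩
    apply Complex.ext
    · exact hz.symm
    · rfl
  refine (dimH_mono hsub).trans ((hL.dimH_image_le _).trans (le_of_eq ?_))
  exact Real.dimH_univ

/-- Dimension of the common points in a closed set which is large near the end point. -/
theorem finK (R : H934E.Rect) {δ : ℕ → ℝ} (hδ : ∀ i, 0 < δ i)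
    (hlim : Tendsto δ atTop (𝓝 0)) {μ : ProbabilityMeasure (NonemptyCompacts ℂ)}
    (hμ : Tendsto (fun i => R.law (hδ i)) atTop (𝓝 μ)) (hD : IsOpen R.D) (hk : 1 ≤ k)
    {A : Set ℂ} (hA : IsClosed A) {a : ℝ} (ha : 0 ≤ a) (hdim : dimH A ≤ ENNReal.ofReal a)
    (hfat : Fat A a R.L0) :
    ∀ᵐ K : Fin k → NonemptyCompacts ℂ ∂(Measure.pi (fun _ : Fin k =>
      (μ : Measure (NonemptyCompacts ℂ)))), ∀ r : ℝ, 0 < r →
      dimH (com K ∩ (A ∩ R.D ∩ Metric.ball 0 r)) = ENNReal.ofReal a - (k : ℝ≥0∞) / 4 ∧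
        (ENNReal.ofReal a < (k : ℝ≥0∞) / 4 → com K ∩ (A ∩ R.D) = ∅) := by
  have ek : ((k : ℝ≥0∞) / 4) = ENNReal.ofReal ((k : ℝ) / 4) := by
    rw [ENNReal.ofReal_div_of_pos (by norm_num), ENNReal.ofReal_natCast,
      show ENNReal.ofReal 4 = 4 by simp]
  have hup := upK (k := k) R hδ hlim hμ hD hk (A := A ∩ R.D) Set.inter_subset_right
  have hlow : ∀ᵐ K : Fin k → NonemptyCompacts ℂ ∂(Measure.pi (fun _ : Fin k =>
      (μ : Measure (NonemptyCompacts ℂ)))), ∀ (m n : ℕ),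
      0 < a - (k : ℝ) / 4 - 1 / ((m : ℝ) + 1) →
      ENNReal.ofReal (a - (k : ℝ) / 4 - 1 / ((m : ℝ) + 1)) ≤
        dimH ((A ∩ R.D ∩ Metric.ball 0 (1 / ((n : ℝ) + 1))) ∩ ⋂ i, (K i : Set ℂ)) := by
    rw [ae_all_iff]
    intro m
    rw [ae_all_iff]
    intro n
    by_cases h : 0 < a - (k : ℝ) / 4 - 1 / ((m : ℝ) + 1)
    · have hm : (0:ℝ) < 1 / ((m : ℝ) + 1) := by positivity
      filter_upwards [t8k hlim hμ k hA hfat h (by linarith)
        (show (0:ℝ) < 1 / ((n : ℝ) + 1) by positivity)] with K hK _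
      exact hK
    · exact Eventually.of_forall fun K h' => absurd h' h
  filter_upwards [hup, hlow] with K h1 h2 r hr
  have hup1 : dimH (com K ∩ (A ∩ R.D ∩ Metric.ball 0 r)) ≤
      ENNReal.ofReal a - (k : ℝ≥0∞) / 4 := by
    refine (dimH_mono (Set.inter_subset_inter_right _ Set.inter_subset_left)).trans
      (h1.1.trans ?_)
    exact tsub_le_tsub_right ((dimH_mono Set.inter_subset_left).trans hdim) _
  refine ⟨le_antisymm hup1 ?_, ?_⟩
  · rw [ek, ← ENNReal.ofReal_sub _ (by positivity)]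
    rcases le_or_gt (a - (k : ℝ) / 4) 0 with h0 | h0
    · rw [ENNReal.ofReal_of_nonpos h0]
      exact zero_le
    · obtain ⟨n, hn⟩ := exists_nat_one_div_lt hr
      have hlim2 : Tendsto (fun m : ℕ => ENNReal.ofReal (a - (k : ℝ) / 4 - 1 / ((m : ℝ) + 1)))
          atTop (𝓝 (ENNReal.ofReal (a - (k : ℝ) / 4))) := by
        apply ENNReal.tendsto_ofReal
        have h3 := tendsto_one_div_add_atTop_nhds_zero_nat (𝕜 := ℝ)
        have h4 := (tendsto_const_nhds (x := a - (k : ℝ) / 4)).sub h3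
        rwa [sub_zero] at h4
      refine le_of_tendsto hlim2 ?_
      have h5 := (tendsto_one_div_add_atTop_nhds_zero_nat (𝕜 := ℝ)).eventually_lt_const h0
      filter_upwards [h5] with m hm
      refine (h2 m n (by linarith)).trans (dimH_mono ?_)
      rintro z ⟨⟨z1, z2⟩, z3⟩
      exact ⟨z3, z1, Metric.ball_subset_ball hn.le z2⟩
  · intro h3
    exact h1.2 ((((dimH_mono Set.inter_subset_left).trans hdim)).trans_lt h3)

end Pool.Agent.U151.IP
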