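import Pool.Agent.U151.IP.Disc

/-!
The law of the traces of `k` independent exploration paths, and its weak limits.
-/

set_option autoImplicit false

namespace Pool.Agent.U151.IP

open H973 hiding SR
open H974 H934E H934F Finset MeasureTheory TopologicalSpace Filter Topology

variable {k : ℕ}

/-- The traces of `k` configurations. -/
noncomputable def trk (R : Rect) {δ : ℝ} (hδ : 0 < δ) (F : Finset (Edg × Fin k)) :
    Fin k → NonemptyCompacts ℂ := fun i => R.trace hδ (sl i F)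

/-- Their law. -/
noncomputable def lawK (R : Rect) {δ : ℝ} (hδ : 0 < δ) (k : ℕ) :
    Measure (Fin k → NonemptyCompacts ℂ) :=
  ∑ F ∈ (cp k (R.edges δ)).powerset, ENNReal.ofReal ((1/2) ^ (cp k (R.edges δ)).card) •
    Measure.dirac (trk R hδ F)

theorem lawK_apply (R : Rect) {δ : ℝ} (hδ : 0 < δ) {G : Set (Fin k → NonemptyCompacts ℂ)}
    (hG : MeasurableSet G) :
    lawK R hδ k G = ENNReal.ofReal (Qk k (R.edges δ) (fun F => trk R hδ F ∈ G)) := by
  classical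
  unfold lawK
  rw [Measure.finsetSum_apply]
  unfold Qk Pr
  rw [Ex_halfG, ENNReal.ofReal_mul (by positivity), ENNReal.ofReal_sum_of_nonneg
    (fun _ _ => ind_nonneg _), Finset.mul_sum]
  apply Finset.sum_congr rfl
  intro F _
  rw [Measure.smul_apply, Measure.dirac_apply' _ hG, smul_eq_mul]
  congr 1
  by_cases h : trk R hδ F ∈ G
  · rw [ind_of h, Set.indicator_of_mem h]; simp
  · rw [ind_not_of h, Set.indicator_of_notMem h]; simp

/-- The copies are independent. -/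
theorem pi_law (R : Rect) {δ : ℝ} (hδ : 0 < δ) (k : ℕ) :
    Measure.pi (fun _ : Fin k => (R.law hδ : Measure (NonemptyCompacts ℂ))) = lawK R hδ k := by
  apply Measure.pi_eq
  intro B hB
  rw [lawK_apply R hδ (MeasurableSet.univ_pi hB)]
  have e : Qk k (R.edges δ) (fun F => trk R hδ F ∈ Set.pi Set.univ B) =
      ∏ i, Q (R.edges δ) (fun F => R.trace hδ F ∈ B i) := by
    rw [← Pr_all]
    apply Pr_congr
    intro F _
    rw [Set.mem_univ_pi]
    rfl
  rw [e, ENNReal.ofReal_prod_of_nonneg (fun i _ => Pr_nonneg okhalf _ _)]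
  apply Finset.prod_congr rfl
  intro i _
  rw [R.law_apply hδ (hB i)]

/-- Weak limits of the law of `k` independent paths. -/
theorem tendsto_pi {R : Rect} {δ : ℕ → ℝ} {hδ : ∀ i, 0 < δ i}
    {μ : ProbabilityMeasure (NonemptyCompacts ℂ)}
    (hμ : Tendsto (fun i => R.law (hδ i)) atTop (𝓝 μ)) (k : ℕ) :
    Tendsto (fun i => ProbabilityMeasure.pi (fun _ : Fin k => R.law (hδ i))) atTop
      (𝓝 (ProbabilityMeasure.pi (fun _ : Fin k => μ))) := by
  have h := ProbabilityMeasure.continuous_pi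
    (ι := Fin k) (α := fun _ => NonemptyCompacts ℂ)
  exact (h.tendsto _).comp (tendsto_pi_nhds.mpr fun _ => hμ)

theorem pi_law_apply (R : Rect) {δ : ℝ} (hδ : 0 < δ) {G : Set (Fin k → NonemptyCompacts ℂ)}
    (hG : MeasurableSet G) :
    (ProbabilityMeasure.pi (fun _ : Fin k => R.law hδ) : Measure (Fin k → NonemptyCompacts ℂ)) G =
      ENNReal.ofReal (Qk k (R.edges δ) (fun F => trk R hδ F ∈ G)) := by
  rw [ProbabilityMeasure.toMeasure_pi, pi_law, lawK_apply R hδ hG]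

/-! ### Sets which are large near the end point -/

theorem Iw_nonneg (t : ℝ) (h : ℤ) {w : Vtx → ℝ} (hw : ∀ v, 0 ≤ w v) : 0 ≤ Iw t h w :=
  Finset.sum_nonneg (fun v _ => Finset.sum_nonneg (fun x _ =>
    mul_nonneg (mul_nonneg (hw v) (hw x)) (Real.rpow_nonneg (mx_pos _).le _)))

theorem Iw_mono {b b' : ℝ} (hb : b' ≤ b) {h : ℤ} (hh : 1 ≤ h) {w : Vtx → ℝ} (hw : ∀ v, 0 ≤ w v) :
    Iw b' h w ≤ (2 * (h : ℝ)) ^ (b - b') * Iw b h w := by
  have hh0 : (0:ℝ) < h := by exact_mod_cast (show (0:ℤ) < h by omega)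
  unfold Iw
  rw [Finset.mul_sum]
  apply Finset.sum_le_sum
  intro v hv
  rw [Finset.mul_sum]
  apply Finset.sum_le_sum
  intro x hx
  have hm := mx_pos (nd v x)
  have hm2 : ((max (nd v x) 1 : ℤ) : ℝ) ≤ 2 * (h : ℝ) := by
    have : max (nd v x) 1 ≤ 2 * h := max_le (t5_nd hv hx) (by omega)
    exact_mod_cast this
  have e : ((max (nd v x) 1 : ℤ) : ℝ) ^ (-b') =
      ((max (nd v x) 1 : ℤ) : ℝ) ^ (b - b') * ((max (nd v x) 1 : ℤ) : ℝ) ^ (-b) := by
    rw [← Real.rpow_add hm]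
    congr 1
    ring
  have i1 : ((max (nd v x) 1 : ℤ) : ℝ) ^ (b - b') ≤ (2 * (h : ℝ)) ^ (b - b') :=
    Real.rpow_le_rpow hm.le hm2 (by linarith)
  rw [e]
  have i2 : 0 ≤ w v * w x * ((max (nd v x) 1 : ℤ) : ℝ) ^ (-b) :=
    mul_nonneg (mul_nonneg (hw v) (hw x)) (Real.rpow_nonneg hm.le _)
  calc w v * w x * (((max (nd v x) 1 : ℤ) : ℝ) ^ (b - b') * ((max (nd v x) 1 : ℤ) : ℝ) ^ (-b))
      = ((max (nd v x) 1 : ℤ) : ℝ) ^ (b - b') *
        (w v * w x * ((max (nd v x) 1 : ℤ) : ℝ) ^ (-b)) := by ring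
    _ ≤ _ := mul_le_mul_of_nonneg_right i1 i2

/-- The set `A` has dimension at least `a` at all scales at the end point `b = 0`, in terms of
weights on the lattice. -/
def Fat (A : Set ℂ) (a L : ℝ) : Prop :=
  ∀ b : ℝ, 0 ≤ b → b < a → ∃ M : ℝ, 0 < M ∧ ∀ (s : Bool × Bool) (h : ℤ) (δ : ℝ), 2 ≤ h → 0 < δ →
    16 * (h : ℝ) * δ ≤ L → ∃ w : Vtx → ℝ, (∀ v, 0 ≤ w v) ∧ ∑ v ∈ core h, w v = 1 ∧
      Iw b h w ≤ M * (h : ℝ) ^ (-b) ∧
      ∀ v ∈ core h, w v ≠ 0 → ∃ z ∈ A, dist (t7_pt δ s v) z ≤ δ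

theorem fat_univ (L : ℝ) : Fat Set.univ 2 L := by
  intro b hb hb2
  have hb1 : 0 < 1 - b / 2 := by linarith
  refine ⟨(1 + 4 / (1 - b / 2)) ^ 2, by positivity, ?_⟩
  intro s h δ hh hδ _
  have hh0 : (0:ℝ) < h := by exact_mod_cast (show (0:ℤ) < h by omega)
  have hc := t5_card (h := h) (by omega)
  have hc0 : (0:ℝ) < (2 * (h : ℝ) + 1) ^ 2 := by positivity
  refine ⟨fun _ => 1 / (2 * (h : ℝ) + 1) ^ 2, fun _ => by positivity, ?_, ?_, ?_⟩
  · rw [Finset.sum_const, nsmul_eq_mul, hc]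
    field_simp
  · unfold Iw
    have i1 : ∀ v ∈ core h, ∑ x ∈ core h,
        (1 / (2 * (h : ℝ) + 1) ^ 2) * (1 / (2 * (h : ℝ) + 1) ^ 2) *
          ((max (nd v x) 1 : ℤ) : ℝ) ^ (-b) ≤
        (1 / (2 * (h : ℝ) + 1) ^ 2) * (1 / (2 * (h : ℝ) + 1) ^ 2) *
          ((1 + 4 / (1 - b / 2)) ^ 2 * (h : ℝ) ^ (2 - b)) := by
      intro v hv
      rw [← Finset.mul_sum]
      exact mul_le_mul_of_nonneg_left (t5_two hb hb2 h (by omega) v hv) (by positivity)
    refine (Finset.sum_le_sum i1).trans ?_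
    rw [Finset.sum_const, nsmul_eq_mul, hc]
    have e : (h : ℝ) ^ (2 - b) = (h : ℝ) ^ 2 * (h : ℝ) ^ (-b) := by
      rw [sub_eq_add_neg, Real.rpow_add hh0]
      norm_num
    rw [e]
    have i2 : (h : ℝ) ^ 2 ≤ (2 * (h : ℝ) + 1) ^ 2 := by nlinarith
    have hpos : 0 < (h : ℝ) ^ (-b) := Real.rpow_pos_of_pos hh0 _
    calc (2 * (h : ℝ) + 1) ^ 2 * (1 / (2 * (h : ℝ) + 1) ^ 2 * (1 / (2 * (h : ℝ) + 1) ^ 2) *
          ((1 + 4 / (1 - b / 2)) ^ 2 * ((h : ℝ) ^ 2 * (h : ℝ) ^ (-b))))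
        = ((h : ℝ) ^ 2 / (2 * (h : ℝ) + 1) ^ 2) *
          ((1 + 4 / (1 - b / 2)) ^ 2 * (h : ℝ) ^ (-b)) := by field_simp
      _ ≤ 1 * ((1 + 4 / (1 - b / 2)) ^ 2 * (h : ℝ) ^ (-b)) := by
          apply mul_le_mul_of_nonneg_right _ (by positivity)
          rw [div_le_one hc0]
          exact i2
      _ = _ := one_mul _
  · intro v _ _
    exact ⟨t7_pt δ s v, Set.mem_univ _, by rw [dist_self]; exact hδ.le⟩

/-- The lines through the end point. -/
theorem fat_line {l : ℝ} (hl : |l| ≤ 1 / 8) (L : ℝ) : Fat {z : ℂ | z.re = l * z.im} 1 L := by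
  classical
  intro b hb hb1
  have hb1' : 0 < 1 - b := by linarith
  refine ⟨1 + 4 / (1 - b), by positivity, ?_⟩
  intro s h δ hh hδ _
  have hh0 : (0:ℝ) < h := by exact_mod_cast (show (0:ℤ) < h by omega)
  have hh2 : (2:ℝ) ≤ h := by exact_mod_cast hh
  have hc0 : (0:ℝ) < 2 * (h : ℝ) + 1 := by positivity
  have hcard : ((Finset.Icc (3 * h) (5 * h)).card : ℝ) = 2 * (h : ℝ) + 1 := by
    rw [Int.card_Icc]
    have h2 : ((5 * h + 1 - 3 * h).toNat : ℤ) = 2 * h + 1 := by omega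
    have h4 : (((5 * h + 1 - 3 * h).toNat : ℤ) : ℝ) = ((2 * h + 1 : ℤ) : ℝ) := by rw [h2]
    push_cast at h4 ⊢
    rw [h4]
  set c : ℤ → ℤ := fun y => ⌊l * ((y : ℝ) + 1) + 1 / 2⌋ with hc
  have hc1 : ∀ y : ℤ, (c y : ℝ) ≤ l * ((y : ℝ) + 1) + 1 / 2 := fun y => Int.floor_le _
  have hc2 : ∀ y : ℤ, l * ((y : ℝ) + 1) + 1 / 2 < (c y : ℝ) + 1 := fun y =>
    Int.lt_floor_add_one _
  have hl' := abs_le.mp hl
  have hcm : ∀ y ∈ Finset.Icc (3 * h) (5 * h), c y ∈ Finset.Icc (-h) h := by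
    intro y hy
    rw [Finset.mem_Icc] at hy ⊢
    have y1 : 3 * (h : ℝ) ≤ (y : ℝ) := by exact_mod_cast hy.1
    have y2 : (y : ℝ) ≤ 5 * (h : ℝ) := by exact_mod_cast hy.2
    have a1 : l * ((y : ℝ) + 1) ≤ 1 / 8 * ((y : ℝ) + 1) :=
      mul_le_mul_of_nonneg_right hl'.2 (by linarith)
    have a2 : -(1 / 8) * ((y : ℝ) + 1) ≤ l * ((y : ℝ) + 1) :=
      mul_le_mul_of_nonneg_right hl'.1 (by linarith)
    have b1 := hc1 y
    have b2 := hc2 y
    constructor
    · have : (-(h : ℝ)) - 1 < (c y : ℝ) := by linarith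
      have : (-h) - 1 < c y := by exact_mod_cast this
      omega
    · have : (c y : ℝ) < (h : ℝ) + 1 := by linarith
      have : c y < h + 1 := by exact_mod_cast this
      omega
  -- sums over the core of functions which vanish outside the line
  have hsum : ∀ g : Vtx → ℝ, ∑ v ∈ core h, (if v.1 = c v.2 then g v else 0) =
      ∑ y ∈ Finset.Icc (3 * h) (5 * h), g (c y, y) := by
    intro g
    unfold core
    rw [Finset.sum_product_right]
    apply Finset.sum_congr rfl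
    intro y hy
    rw [Finset.sum_eq_single (c y)]
    · simp
    · intro x _ hx
      exact if_neg hx
    · intro h0
      exact absurd (hcm y hy) h0
  refine ⟨fun v => if v.1 = c v.2 then 1 / (2 * (h : ℝ) + 1) else 0, ?_, ?_, ?_, ?_⟩
  · intro v
    show 0 ≤ (if v.1 = c v.2 then 1 / (2 * (h : ℝ) + 1) else 0)
    split_ifs
    · positivity
    · exact le_rfl
  · rw [hsum (fun _ => 1 / (2 * (h : ℝ) + 1)), Finset.sum_const, nsmul_eq_mul, hcard]
    field_simp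
  · unfold Iw
    have e1 : ∀ v : Vtx, ∑ x ∈ core h, (if v.1 = c v.2 then 1 / (2 * (h : ℝ) + 1) else 0) *
        (if x.1 = c x.2 then 1 / (2 * (h : ℝ) + 1) else 0) *
          ((max (nd v x) 1 : ℤ) : ℝ) ^ (-b) =
        if v.1 = c v.2 then ∑ y ∈ Finset.Icc (3 * h) (5 * h), (1 / (2 * (h : ℝ) + 1)) *
          (1 / (2 * (h : ℝ) + 1)) * ((max (nd v (c y, y)) 1 : ℤ) : ℝ) ^ (-b) else 0 := by
      intro v
      split_ifs with h0
      · rw [← hsum (fun x => (1 / (2 * (h : ℝ) + 1)) *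
          (1 / (2 * (h : ℝ) + 1)) * ((max (nd v x) 1 : ℤ) : ℝ) ^ (-b))]
        apply Finset.sum_congr rfl
        intro x _
        split_ifs
        · rfl
        · ring
      · simp
    rw [Finset.sum_congr rfl (fun v _ => e1 v), hsum]
    have i1 : ∀ y ∈ Finset.Icc (3 * h) (5 * h), ∑ y' ∈ Finset.Icc (3 * h) (5 * h),
        (1 / (2 * (h : ℝ) + 1)) * (1 / (2 * (h : ℝ) + 1)) *
          ((max (nd (c y, y) (c y', y')) 1 : ℤ) : ℝ) ^ (-b) ≤
        (1 / (2 * (h : ℝ) + 1)) * (1 / (2 * (h : ℝ) + 1)) *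
          ((1 + 4 / (1 - b)) * (h : ℝ) ^ (1 - b)) := by
      intro y hy
      rw [← Finset.mul_sum]
      apply mul_le_mul_of_nonneg_left _ (by positivity)
      have i2 := t5_one hb hb1 h (by omega) y (Finset.Icc (3 * h) (5 * h)) (by
        intro l hl
        rw [Finset.mem_Icc] at hl hy
        rw [abs_le]
        omega)
      refine le_trans (Finset.sum_le_sum ?_) i2
      intro y' _
      apply Real.rpow_le_rpow_of_nonpos (t5_max_pos _) _ (by linarith)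
      have : max |y - y'| 1 ≤ max (nd (c y, y) (c y', y')) 1 :=
        max_le_max (le_max_right _ _) le_rfl
      exact_mod_cast this
    refine (Finset.sum_le_sum i1).trans ?_
    rw [Finset.sum_const, nsmul_eq_mul, hcard]
    have e : (h : ℝ) ^ (1 - b) = (h : ℝ) * (h : ℝ) ^ (-b) := by
      rw [sub_eq_add_neg, Real.rpow_add hh0, Real.rpow_one]
    rw [e]
    have hpos : 0 < (h : ℝ) ^ (-b) := Real.rpow_pos_of_pos hh0 _
    calc (2 * (h : ℝ) + 1) * (1 / (2 * (h : ℝ) + 1) * (1 / (2 * (h : ℝ) + 1)) *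
          ((1 + 4 / (1 - b)) * ((h : ℝ) * (h : ℝ) ^ (-b))))
        = ((h : ℝ) / (2 * (h : ℝ) + 1)) * ((1 + 4 / (1 - b)) * (h : ℝ) ^ (-b)) := by field_simp
      _ ≤ 1 * ((1 + 4 / (1 - b)) * (h : ℝ) ^ (-b)) := by
          apply mul_le_mul_of_nonneg_right _ (by positivity)
          rw [div_le_one hc0]
          linarith
      _ = _ := one_mul _
  · intro v _ hv
    have hv0 : v.1 = c v.2 := by
      by_contra h0
      exact hv (if_neg h0)
    refine ⟨⟨l * (t7_pt δ s v).im, (t7_pt δ s v).im⟩, rfl, ?_⟩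
    rw [dist_eq_norm]
    have e : t7_pt δ s v - ⟨l * (t7_pt δ s v).im, (t7_pt δ s v).im⟩ =
        (((t7_pt δ s v).re - l * (t7_pt δ s v).im : ℝ) : ℂ) := by
      apply Complex.ext
      · simp
      · simp
    rw [e, Complex.norm_real, Real.norm_eq_abs]
    have b1 := hc1 v.2
    have b2 := hc2 v.2
    rw [← hv0] at b1 b2
    have b3 : δ * (v.1 : ℝ) ≤ δ * (l * ((v.2 : ℝ) + 1) + 1 / 2) :=
      mul_le_mul_of_nonneg_left b1 hδ.le
    have b4 : δ * (l * ((v.2 : ℝ) + 1) + 1 / 2) ≤ δ * ((v.1 : ℝ) + 1) :=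
      mul_le_mul_of_nonneg_left b2.le hδ.le
    have e2 : (t7_pt δ s v).im = δ * ((v.2 : ℝ) + 1) := by
      unfold t7_pt pt
      simp
    have e3 : (t7_pt δ s v).re = δ * (v.1 : ℝ) + (if s.1 then δ / 2 else -(δ / 2)) := by
      unfold t7_pt pt
      simp only [Complex.add_re]
    rw [e2, e3, abs_le]
    split_ifs
    · constructor <;> nlinarith
    · constructor <;> nlinarith

/-- The points of the core in the plane. -/
theorem t7_region {δ L ρ : ℝ} (hδ : 0 < δ) {h : ℤ} (hh : 2 ≤ h) (hL : 16 * (h : ℝ) * δ ≤ L)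
    (hρ : ρ ≤ δ * h) {s : Bool × Bool} {v : Vtx} (hv : v ∈ core h) {z : ℂ}
    (hd : dist (t7_pt δ s v) z ≤ δ) : ρ ≤ z.im ∧ z.im ≤ 3 * L / 8 ∧ |z.re| ≤ z.im := by
  rw [t5_core] at hv
  obtain ⟨⟨v1, v2⟩, v3, v4⟩ := hv
  have q1 : (-(h : ℝ)) ≤ (v.1 : ℝ) := by exact_mod_cast v1
  have q2 : (v.1 : ℝ) ≤ (h : ℝ) := by exact_mod_cast v2
  have q3 : 3 * (h : ℝ) ≤ (v.2 : ℝ) := by exact_mod_cast v3
  have q4 : (v.2 : ℝ) ≤ 5 * (h : ℝ) := by exact_mod_cast v4
  have q5 : (2:ℝ) ≤ (h : ℝ) := by exact_mod_cast hh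
  generalize (h : ℝ) = y at *
  have dre : |(t7_pt δ s v).re - z.re| ≤ δ := by
    have := Complex.abs_re_le_norm (t7_pt δ s v - z)
    rw [Complex.sub_re] at this
    rw [dist_eq_norm] at hd
    exact this.trans hd
  have dim : |(t7_pt δ s v).im - z.im| ≤ δ := by
    have := Complex.abs_im_le_norm (t7_pt δ s v - z)
    rw [Complex.sub_im] at this
    rw [dist_eq_norm] at hd
    exact this.trans hd
  have eim : (t7_pt δ s v).im = δ * ((v.2 : ℝ) + 1) := by
    unfold t7_pt pt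
    simp
  have ere : |(t7_pt δ s v).re| ≤ δ * y + δ / 2 := by
    have i1 : δ * (-y) ≤ δ * (v.1 : ℝ) := mul_le_mul_of_nonneg_left q1 hδ.le
    have i2 : δ * (v.1 : ℝ) ≤ δ * y := mul_le_mul_of_nonneg_left q2 hδ.le
    have e : (t7_pt δ s v).re = δ * (v.1 : ℝ) + (if s.1 then δ / 2 else -(δ / 2)) := by
      unfold t7_pt pt
      simp only [Complex.add_re]
    rw [e, abs_le]
    split_ifs
    · constructor <;> linarith
    · constructor <;> linarith
  rw [eim] at dim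
  rw [abs_le] at dre dim ere
  have i1 : δ * (3 * y) ≤ δ * (v.2 : ℝ) := mul_le_mul_of_nonneg_left q3 hδ.le
  have i2 : δ * (v.2 : ℝ) ≤ δ * (5 * y) := mul_le_mul_of_nonneg_left q4 hδ.le
  have i3 : δ * 2 ≤ δ * y := mul_le_mul_of_nonneg_left q5 hδ.le
  have e1 : δ * ((v.2 : ℝ) + 1) = δ * (v.2 : ℝ) + δ := by ring
  rw [e1] at dim
  have e2 : 16 * y * δ = 16 * (δ * y) := by ring
  rw [e2] at hL
  have e3 : δ * (3 * y) = 3 * (δ * y) := by ring
  have e4 : δ * (5 * y) = 5 * (δ * y) := by ring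
  rw [e3] at i1
  rw [e4] at i2
  generalize δ * y = Y at *
  generalize δ * (v.2 : ℝ) = V at *
  refine ⟨?_, ?_, ?_⟩
  · linarith [dim.1, dim.2]
  · linarith [dim.1, dim.2]
  · rw [abs_le]
    constructor <;> linarith [dim.1, dim.2, dre.1, dre.2, ere.1, ere.2]

/-- Lower bound for the dimension of the common points of `k` independent paths near `b = 0` in a
set which is large near `b`. -/
theorem t8k {R : Rect} {δ : ℕ → ℝ} {hδ : ∀ i, 0 < δ i} (hlim : Tendsto δ atTop (𝓝 0))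
    {μ : ProbabilityMeasure (NonemptyCompacts ℂ)}
    (hμ : Tendsto (fun i => R.law (hδ i)) atTop (𝓝 μ)) (k : ℕ) {A : Set ℂ} (hA : IsClosed A)
    {a : ℝ} (hfat : Fat A a R.L0) {t : ℝ} (ht : 0 < t) (hta : t + (k : ℝ) / 4 < a) {r : ℝ}
    (hr : 0 < r) :
    ∀ᵐ K : Fin k → NonemptyCompacts ℂ ∂(Measure.pi (fun _ : Fin k =>
      (μ : Measure (NonemptyCompacts ℂ)))),
      ENNReal.ofReal t ≤ dimH ((A ∩ R.D ∩ Metric.ball 0 r) ∩ ⋂ i, (K i : Set ℂ)) := by
  have hμ' := tendsto_pi hμ k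
  have key := lowerT (k := k) ht hμ' (B := A ∩ R.D ∩ Metric.ball 0 r) ?_
  · rwa [ProbabilityMeasure.toMeasure_pi] at key
  obtain ⟨s, c1, C1, hc1, hC1, h5⟩ := t5k
  have hk0 : (0:ℝ) ≤ (k : ℝ) / 4 := by positivity
  obtain ⟨M0, hM0, hfat'⟩ := hfat (t + (k : ℝ) / 4) (by linarith) hta
  have hL0 := R.L0_pos
  set L : ℝ := min R.L0 r with hL
  have hLpos : 0 < L := lt_min hL0 hr
  have hLL : L ≤ R.L0 := min_le_left _ _
  have hLr : L ≤ r := min_le_right _ _
  -- constants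
  set M : ℝ := 2 ^ t * M0 with hM
  have h2t : (1:ℝ) ≤ 2 ^ t := Real.one_le_rpow (by norm_num) ht.le
  have hMpos : 0 < M := by positivity
  have hMM : M0 ≤ M := by
    rw [hM]
    nlinarith
  set p0 : ℝ := (c1 ^ k) ^ 2 / (8 * C1 ^ k * M) with hp0
  have hp0pos : 0 < p0 := by positivity
  set p : ℝ := min p0 1 with hp
  have hppos : 0 < p := lt_min hp0pos one_pos
  have hp1 : p ≤ 1 := min_le_right _ _
  set c0 : ℝ := c1 ^ k / 2 with hc0
  have hc0pos : 0 < c0 := by positivity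
  set E0 : ℝ := C1 ^ k * M / p0 with hE0
  have hE0pos : 0 < E0 := by positivity
  intro ε hε
  -- the number of scales
  obtain ⟨J, hJ⟩ : ∃ J : ℕ, ENNReal.ofReal ((1 - p) ^ J) ≤ ε := by
    have h1 : Tendsto (fun J : ℕ => ENNReal.ofReal ((1 - p) ^ J)) atTop (𝓝 0) := by
      have h2 : Tendsto (fun J : ℕ => (1 - p) ^ J) atTop (𝓝 0) :=
        tendsto_pow_atTop_nhds_zero_of_lt_one (by linarith) (by linarith)
      have h3 := ENNReal.tendsto_ofReal h2
      rwa [ENNReal.ofReal_zero] at h3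
    exact ((h1.eventually_lt_const hε).exists).imp fun J hJ => hJ.le
  set ρ : ℝ := L / (32 * 16 ^ J) with hρ
  have hρ0 : 0 < ρ := by positivity
  set C : Set ℂ := A ∩ {z : ℂ | ρ ≤ z.im ∧ z.im ≤ 3 * L / 8 ∧ |z.re| ≤ z.im} with hC
  have hCc : IsCompact C := by
    apply Metric.isCompact_of_isClosed_isBounded
    · apply hA.inter
      refine (isClosed_le continuous_const Complex.continuous_im).inter
        ((isClosed_le Complex.continuous_im continuous_const).inter ?_)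
      exact isClosed_le (Complex.continuous_re.abs) Complex.continuous_im
    · apply (Metric.isBounded_closedBall (x := (0:ℂ)) (r := L)).subset
      rintro z ⟨-, h1, h2, h3⟩
      rw [mem_closedBall_zero_iff]
      have h4 := Complex.norm_le_abs_re_add_abs_im z
      have h5 : |z.im| = z.im := abs_of_nonneg (by linarith)
      linarith
  have hCB : C ⊆ A ∩ R.D ∩ Metric.ball 0 r := by
    rintro z ⟨h0, h1, h2, h3⟩
    have h4 := Complex.norm_le_abs_re_add_abs_im z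
    have h5 : |z.im| = z.im := abs_of_nonneg (by linarith)
    have hLA := R.L0_A
    have hLB := R.L0_B
    have hLH := R.L0_H
    have h6 := abs_le.mp h3
    refine ⟨⟨h0, ?_⟩, ?_⟩
    · refine ⟨?_, ?_, ?_, ?_⟩ <;> linarith [h6.1, h6.2]
    · rw [mem_ball_zero_iff]
      linarith
  refine ⟨2 ^ (-t) / (E0 / c0 ^ 2 * ρ ^ (-t)), by positivity, C, hCc, hCB, fun δ' hδ' => ?_⟩
  apply Eventually.frequently
  filter_upwards [hlim.eventually_lt_const (lt_min hδ' (show 0 < ρ / 4 by positivity))] with i hi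
  rw [lt_min_iff] at hi
  obtain ⟨hi1, hi2⟩ := hi
  have hδi := hδ i
  set u : ℤ := ⌊L / (16 * 16 ^ J * δ i)⌋ with hu
  have e1 : L / (16 * 16 ^ J * δ i) = 2 * ρ / δ i := by
    rw [hρ]; field_simp; ring
  have u1 : (u : ℝ) ≤ 2 * ρ / δ i := by rw [← e1]; exact Int.floor_le _
  have u2 : 2 * ρ / δ i < u + 1 := by rw [← e1]; exact Int.lt_floor_add_one _
  have u3 : (8 : ℝ) < 2 * ρ / δ i := by rw [lt_div_iff₀ hδi]; linarith
  have hu2 : 2 ≤ u := by
    have : ((7 : ℤ) : ℝ) < (u : ℝ) := by push_cast; linarith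
    have : (7 : ℤ) < u := by exact_mod_cast this
    omega
  have hρu : ρ ≤ δ i * u := by
    have h1 : 2 * ρ / δ i ≤ 2 * u := by
      have : (1 : ℝ) ≤ u := by exact_mod_cast (by omega : (1 : ℤ) ≤ u)
      linarith
    rw [div_le_iff₀ hδi] at h1
    linarith
  have hsc : ∀ j < J, 16 * ((16 ^ j * u : ℤ) : ℝ) * δ i ≤ L := by
    intro j hj
    have h1 : (u : ℝ) * δ i ≤ 2 * ρ := by rwa [le_div_iff₀ hδi] at u1
    have h2 : (16 : ℝ) ^ j ≤ 16 ^ J := pow_le_pow_right₀ (by norm_num) hj.le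
    have h3 : 2 * ρ * (16 * 16 ^ J) = L := by rw [hρ]; field_simp; ring
    push_cast
    calc 16 * (16 ^ j * (u : ℝ)) * δ i = (16 * 16 ^ j) * (u * δ i) := by ring
      _ ≤ (16 * 16 ^ J) * (2 * ρ) := by
          apply mul_le_mul (by linarith) h1 (by positivity) (by positivity)
      _ = L := by linarith
  have hge : ∀ j : ℕ, 2 ≤ 16 ^ j * u := by
    intro j
    have : (1 : ℤ) ≤ 16 ^ j := one_le_pow₀ (by norm_num)
    nlinarith
  -- the weights
  have hwe : ∀ j : ℕ, ∃ w : Vtx → ℝ, j < J → ((∀ v, 0 ≤ w v) ∧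
      ∑ v ∈ core (16 ^ j * u), w v = 1 ∧
      Iw (t + (k : ℝ) / 4) (16 ^ j * u) w ≤
        M0 * ((16 ^ j * u : ℤ) : ℝ) ^ (-(t + (k : ℝ) / 4)) ∧
      ∀ v ∈ core (16 ^ j * u), w v ≠ 0 → ∃ z ∈ A, dist (t7_pt (δ i) s v) z ≤ δ i) := by
    intro j
    by_cases hj : j < J
    · obtain ⟨w, hw⟩ := hfat' s (16 ^ j * u) (δ i) (hge j) hδi ((hsc j hj).trans hLL)
      exact ⟨w, fun _ => hw⟩
    · exact ⟨fun _ => 0, fun h => absurd h hj⟩
  choose w hw using hwe
  have hmeas : MeasurableSet {K : Fin k → NonemptyCompacts ℂ |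
      ¬ Pool.Agent.H389R2.Dim.Good t δ' (2 ^ (-t) / (E0 / c0 ^ 2 * ρ ^ (-t)))
        (Metric.cthickening δ' C ∩ ⋂ i, (K i : Set ℂ))} :=
    ((isClosed_goodT t δ' _ hCc.cthickening).isOpen_compl).measurableSet
  rw [pi_law_apply R hδi hmeas]
  refine le_trans (ENNReal.ofReal_le_ofReal ?_) hJ
  have h6 := t6k (k := k) hp1 (c0 := c0) (E0 := E0) (t := t) (s := s)
    (hs := fun j => 16 ^ j * u) hge (fun j => by rw [pow_succ]; ring_nf; exact le_rfl)
    (w := w) J (R.edges (δ i)) ?_ ?_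
  · refine le_trans (Pr_mono okh ?_) h6
    intro F hF hbad j hj hgd
    apply hbad
    obtain ⟨w1, w2, w3, w4⟩ := hw j hj
    have hg := t7k R hδi (hge j) ((hsc j hj).trans hLL) hF w1 hc0pos hE0pos ht hgd
      (P := Metric.cthickening δ' C) ?_ hi1.le
    · intro s' hs' hcov
      have h1 := hg s' hs' hcov
      refine le_trans ?_ h1
      have h2 : ρ ≤ δ i * ((16 ^ j * u : ℤ) : ℝ) := by
        refine hρu.trans ?_
        apply mul_le_mul_of_nonneg_left _ hδi.le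
        have : u ≤ 16 ^ j * u := by
          have : (1 : ℤ) ≤ 16 ^ j := one_le_pow₀ (by norm_num)
          nlinarith
        exact_mod_cast this
      have h3 : (δ i * ((16 ^ j * u : ℤ) : ℝ)) ^ (-t) ≤ ρ ^ (-t) :=
        Real.rpow_le_rpow_of_nonpos hρ0 h2 (by linarith)
      have h4 : 0 < (δ i * ((16 ^ j * u : ℤ) : ℝ)) ^ (-t) := by
        apply Real.rpow_pos_of_pos; linarith
      apply div_le_div_of_nonneg_left (by positivity) (by positivity)
      apply mul_le_mul_of_nonneg_left h3 (by positivity)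
    · intro v hv hne
      obtain ⟨z, hz, hd⟩ := w4 v hv hne
      refine Metric.mem_cthickening_of_dist_le _ z _ _ ?_ (hd.trans hi1.le)
      refine ⟨hz, ?_⟩
      refine t7_region hδi (hge j) (hsc j hj) ?_ hv hd
      refine hρu.trans ?_
      apply mul_le_mul_of_nonneg_left _ hδi.le
      have : u ≤ 16 ^ j * u := by
        have : (1 : ℤ) ≤ 16 ^ j := one_le_pow₀ (by norm_num)
        nlinarith
      exact_mod_cast this
  · intro j hj T hT
    obtain ⟨w1, w2, w3, w4⟩ := hw j hj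
    refine (min_le_left _ _).trans ?_
    have hj1 : (1 : ℤ) ≤ 16 ^ j * u := by have := hge j; omega
    have hj0 : (0:ℝ) < ((16 ^ j * u : ℤ) : ℝ) := by exact_mod_cast (by omega : (0:ℤ) < 16 ^ j * u)
    refine h5 k M t hMpos (16 ^ j * u) (hge j) T hT (w j) w1 w2 ?_ ?_
    · refine (Iw_mono (b := t + (k : ℝ) / 4) (by linarith) hj1 w1).trans ?_
      have e2 : t + (k : ℝ) / 4 - (k : ℝ) / 4 = t := by ring
      rw [e2]
      calc (2 * ((16 ^ j * u : ℤ) : ℝ)) ^ t * Iw (t + (k : ℝ) / 4) (16 ^ j * u) (w j)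
          ≤ (2 * ((16 ^ j * u : ℤ) : ℝ)) ^ t *
            (M0 * ((16 ^ j * u : ℤ) : ℝ) ^ (-(t + (k : ℝ) / 4))) :=
            mul_le_mul_of_nonneg_left w3 (by positivity)
        _ = M * ((16 ^ j * u : ℤ) : ℝ) ^ (-((k : ℝ) / 4)) := by
            rw [Real.mul_rpow (by norm_num) hj0.le, hM, neg_add, Real.rpow_add hj0]
            have e3 : ((16 ^ j * u : ℤ) : ℝ) ^ t * ((16 ^ j * u : ℤ) : ℝ) ^ (-t) = 1 := by
              rw [← Real.rpow_add hj0]
              simp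
            calc 2 ^ t * ((16 ^ j * u : ℤ) : ℝ) ^ t * (M0 * (((16 ^ j * u : ℤ) : ℝ) ^ (-t) *
                  ((16 ^ j * u : ℤ) : ℝ) ^ (-((k : ℝ) / 4))))
                = 2 ^ t * M0 * (((16 ^ j * u : ℤ) : ℝ) ^ t * ((16 ^ j * u : ℤ) : ℝ) ^ (-t)) *
                  ((16 ^ j * u : ℤ) : ℝ) ^ (-((k : ℝ) / 4)) := by ring
              _ = _ := by rw [e3, mul_one]
    · exact w3.trans (mul_le_mul_of_nonneg_right hMM (by positivity))
  · intro j hj
    exact SR_sub R hδi (hge j) ((hsc j hj).trans hLL)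

end Pool.Agent.U151.IP
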