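import Pool.Agent.H974R2.Basic

/-!
Several independent copies of a random subset of a finite set.
-/

set_option autoImplicit false

namespace Pool.Agent.U151.IP

open H974 Finset

variable {E : Type*} [DecidableEq E]

/-! ### Inequalities for expectations -/

theorem markovG {p : E → ℝ} (hp : Ok p) {S : Finset E} {f : Finset E → ℝ}
    (hf : ∀ F, F ⊆ S → 0 ≤ f F) {t : ℝ} (ht : 0 < t) :
    Pr p S (fun F => t ≤ f F) ≤ Ex p S f / t := by
  rw [le_div_iff₀ ht, mul_comm]
  unfold Pr
  rw [← Ex_mul_left]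
  apply Ex_mono hp
  intro F hF
  by_cases h : t ≤ f F
  · rw [ind_of h]; linarith
  · rw [ind_not_of h, mul_zero]; exact hf F hF

theorem paleyG {p : E → ℝ} (hp : Ok p) {S : Finset E} {f : Finset E → ℝ}
    (hf : ∀ F, F ⊆ S → 0 ≤ f F) {m V : ℝ}
    (hm : 0 < m) (hV : 0 < V) (h1 : m ≤ Ex p S f) (h2 : Ex p S (fun F => f F * f F) ≤ V) :
    m ^ 2 / (4 * V) ≤ Pr p S (fun F => m / 2 ≤ f F) := by
  have key : Ex p S f ≤ Ex p S (fun F => m / 2 + (m / (4 * V) * (f F * f F) +
      V / m * ind (m / 2 ≤ f F))) := by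
    apply Ex_mono hp
    intro F hF
    have h0 := hf F hF
    by_cases h : m / 2 ≤ f F
    · rw [ind_of h, mul_one]
      have : f F ≤ m / (4 * V) * (f F * f F) + V / m := by
        have e : m / (4 * V) * (f F * f F) + V / m - f F = (m * f F - 2 * V) ^ 2 / (4 * V * m) := by
          field_simp
          ring
        have : 0 ≤ (m * f F - 2 * V) ^ 2 / (4 * V * m) := by positivity
        linarith
      linarith
    · rw [ind_not_of h, mul_zero]
      push Not at h
      have : 0 ≤ m / (4 * V) * (f F * f F) := by positivity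
      linarith
  have e1 : Ex p S (fun F => m / 2 + (m / (4 * V) * (f F * f F) + V / m * ind (m / 2 ≤ f F))) =
      m / 2 + (m / (4 * V) * Ex p S (fun F => f F * f F) +
        V / m * Pr p S (fun F => m / 2 ≤ f F)) := by
    unfold Pr
    rw [Ex_add, Ex_const, Ex_add, Ex_mul_left, Ex_mul_left]
  rw [e1] at key
  have h3 : m / (4 * V) * Ex p S (fun F => f F * f F) ≤ m / 4 := by
    calc _ ≤ m / (4 * V) * V := mul_le_mul_of_nonneg_left h2 (by positivity)
      _ = m / 4 := by field_simp
  have h4 : m / 4 ≤ V / m * Pr p S (fun F => m / 2 ≤ f F) := by linarith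
  rw [div_le_iff₀ (by positivity)]
  have h5 : m / 4 * m ≤ V / m * Pr p S (fun F => m / 2 ≤ f F) * m :=
    mul_le_mul_of_nonneg_right h4 hm.le
  have h6 : V / m * Pr p S (fun F => m / 2 ≤ f F) * m = V * Pr p S (fun F => m / 2 ≤ f F) := by
    field_simp
  rw [h6] at h5
  nlinarith

theorem okc {q : ℝ} (h0 : 0 ≤ q) (h1 : q ≤ 1) : Ok (fun _ : E => q) := fun _ => ⟨h0, h1⟩

/-! ### Copies -/

variable {k : ℕ}

/-- The `i`-th copy of the random set. -/
def sl (i : Fin k) (F : Finset (E × Fin k)) : Finset E :=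
  (F.filter (fun e => e.2 = i)).image Prod.fst

theorem mem_sl {i : Fin k} {F : Finset (E × Fin k)} {e : E} : e ∈ sl i F ↔ (e, i) ∈ F := by
  unfold sl
  rw [Finset.mem_image]
  constructor
  · rintro ⟨⟨a, j⟩, h, rfl⟩
    rw [Finset.mem_filter] at h
    obtain ⟨h1, h2⟩ := h
    simp only at h2
    subst h2
    exact h1
  · intro h
    exact ⟨(e, i), Finset.mem_filter.mpr ⟨h, rfl⟩, rfl⟩

/-- `k` copies of the ground set. -/
def cp (k : ℕ) (S : Finset E) : Finset (E × Fin k) := S ×ˢ (Finset.univ : Finset (Fin k))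

theorem mem_cp {S : Finset E} {x : E × Fin k} : x ∈ cp k S ↔ x.1 ∈ S := by
  unfold cp
  rw [Finset.mem_product]
  simp

theorem sl_sub {S : Finset E} {F : Finset (E × Fin k)} (hF : F ⊆ cp k S) (i : Fin k) :
    sl i F ⊆ S := by
  intro e he
  rw [mem_sl] at he
  exact mem_cp.mp (hF he)

theorem sl_inter (i : Fin k) (F : Finset (E × Fin k)) (T : Finset E) :
    sl i (F ∩ cp k T) = sl i F ∩ T := by
  ext e
  rw [mem_sl, Finset.mem_inter, mem_cp, Finset.mem_inter, mem_sl]

theorem cp_sub {S T : Finset E} (h : S ⊆ T) : cp k S ⊆ cp k T := by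
  intro x hx
  rw [mem_cp] at hx ⊢
  exact h hx

theorem cp_disj {S T : Finset E} (h : Disjoint S T) : Disjoint (cp k S) (cp k T) := by
  rw [Finset.disjoint_left] at h ⊢
  intro x h1 h2
  rw [mem_cp] at h1 h2
  exact h h1 h2

/-- the `i`-th copy of the ground set -/
def cpi (i : Fin k) (S : Finset E) : Finset (E × Fin k) :=
  S.map ⟨fun e => (e, i), fun a b h => (Prod.mk.inj h).1⟩

theorem mem_cpi {i : Fin k} {S : Finset E} {x : E × Fin k} : x ∈ cpi i S ↔ x.1 ∈ S ∧ x.2 = i := by
  unfold cpi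
  rw [Finset.mem_map]
  constructor
  · rintro ⟨a, ha, rfl⟩
    exact ⟨ha, rfl⟩
  · rintro ⟨h1, h2⟩
    refine ⟨x.1, h1, ?_⟩
    show (x.1, i) = x
    rw [← h2]

theorem cpi_sub (i : Fin k) (S : Finset E) : cpi i S ⊆ cp k S := by
  intro x hx
  rw [mem_cpi] at hx
  rw [mem_cp]
  exact hx.1

/-- One copy has the original law. -/
theorem Ex_slice (q : ℝ) (S : Finset E) (i : Fin k) (f : Finset E → ℝ) :
    Ex (fun _ => q) (cp k S) (fun F => f (sl i F)) = Ex (fun _ => q) S f := by
  rw [Ex_local (cpi_sub i S) (f := fun F => f (sl i F))]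
  · unfold cpi
    rw [Ex_map]
    apply Ex_congr
    intro F _
    congr 1
    ext e
    rw [mem_sl, Finset.mem_map]
    constructor
    · rintro ⟨a, ha, h⟩
      have : a = e := (Prod.mk.inj h).1
      rwa [← this]
    · intro h
      exact ⟨e, h, rfl⟩
  · intro F hF
    congr 1
    ext e
    rw [mem_sl, mem_sl, Finset.mem_inter, mem_cpi]
    constructor
    · intro h
      exact ⟨h, mem_cp.mp (hF h), rfl⟩
    · rintro ⟨h, -⟩
      exact h

/-- Product formula, for a part of the copies. -/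
theorem Ex_prod_aux (q : ℝ) (S : Finset E) (f : Fin k → Finset E → ℝ) (T : Finset (Fin k)) :
    Ex (fun _ => q) (cp k S) (fun F => ∏ i ∈ T, f i (sl i F)) =
      ∏ i ∈ T, Ex (fun _ => q) S (f i) := by
  induction T using Finset.induction_on with
  | empty => simp [Ex_const]
  | insert a T ha ih =>
    rw [Finset.prod_insert ha, ← ih, ← Ex_slice q S a (f a)]
    have e : Ex (fun _ => q) (cp k S) (fun F => ∏ i ∈ insert a T, f i (sl i F)) =
        Ex (fun _ => q) (cp k S) (fun F => f a (sl a F) * ∏ i ∈ T, f i (sl i F)) := by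
      apply Ex_congr
      intro F _
      rw [Finset.prod_insert ha]
    rw [e]
    have hST : S ×ˢ T ⊆ cp k S := by
      intro x hx
      rw [Finset.mem_product] at hx
      rw [mem_cp]
      exact hx.1
    refine Ex_mul_indep (S := cpi a S) (T := S ×ˢ T) (cpi_sub a S) hST ?_ ?_ ?_
    · rw [Finset.disjoint_left]
      intro x h1 h2
      rw [mem_cpi] at h1
      rw [Finset.mem_product] at h2
      exact ha (h1.2 ▸ h2.2)
    · intro F hF
      congr 1
      ext e
      rw [mem_sl, mem_sl, Finset.mem_inter, mem_cpi]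
      constructor
      · intro h
        exact ⟨h, mem_cp.mp (hF h), rfl⟩
      · rintro ⟨h, -⟩
        exact h
    · intro F hF
      apply Finset.prod_congr rfl
      intro i hi
      congr 1
      ext e
      rw [mem_sl, mem_sl, Finset.mem_inter, Finset.mem_product]
      constructor
      · intro h
        exact ⟨h, mem_cp.mp (hF h), hi⟩
      · rintro ⟨h, -⟩
        exact h

theorem Ex_prod (q : ℝ) (S : Finset E) (f : Fin k → Finset E → ℝ) :
    Ex (fun _ => q) (cp k S) (fun F => ∏ i, f i (sl i F)) = ∏ i, Ex (fun _ => q) S (f i) :=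
  Ex_prod_aux q S f Finset.univ

theorem ind_all (A : Fin k → Prop) : ind (∀ i, A i) = ∏ i, ind (A i) := by
  by_cases h : ∀ i, A i
  · rw [ind_of h, Finset.prod_eq_one (fun i _ => ind_of (h i))]
  · rw [ind_not_of h]
    push Not at h
    obtain ⟨i, hi⟩ := h
    rw [Finset.prod_eq_zero (Finset.mem_univ i) (ind_not_of hi)]

/-- The copies are independent. -/
theorem Pr_all (q : ℝ) (S : Finset E) (A : Fin k → Finset E → Prop) :
    Pr (fun _ => q) (cp k S) (fun F => ∀ i, A i (sl i F)) =
      ∏ i, Pr (fun _ => q) S (A i) := by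
  unfold Pr
  rw [← Ex_prod]
  apply Ex_congr
  intro F _
  exact ind_all _

/-- The same for equal probabilities. -/
theorem Pr_all_const (q : ℝ) (S : Finset E) (A : Finset E → Prop) :
    Pr (fun _ => q) (cp k S) (fun F => ∀ i, A (sl i F)) = (Pr (fun _ => q) S A) ^ k := by
  rw [Pr_all q S (fun _ => A), Finset.prod_const, Finset.card_univ, Fintype.card_fin]

theorem Ex_halfG (S : Finset E) (f : Finset E → ℝ) :
    Ex (fun _ => (1/2 : ℝ)) S f = (1/2) ^ S.card * ∑ F ∈ S.powerset, f F := by
  unfold Ex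
  rw [Finset.mul_sum]
  apply Finset.sum_congr rfl
  intro F hF
  rw [Finset.prod_const, Finset.prod_const]
  have h1 : F.card + (S \ F).card = S.card := by
    rw [Finset.card_sdiff_of_subset (Finset.mem_powerset.mp hF)]
    have := Finset.card_le_card (Finset.mem_powerset.mp hF)
    omega
  have h2 : (1 - 1/2 : ℝ) = 1/2 := by norm_num
  rw [h2, ← pow_add, h1]

end Pool.Agent.U151.IP
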